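import Pool.Agent.X49.Alg.Poly
import Pool.Agent.H268R2.LB.Count

set_option autoImplicit false

/-!
# Girth and the algebraic degree of neighbourhoods
-/

namespace Pool.Agent.X49.Alg

open Finset MvPolynomial

variable {F : Type} [Field F] [Fintype F] {c m s D k : ℕ}
  {G : SimpleGraph (Fin c × (Fin m → F))}

open Classical in
theorem moore (hG : LocLow s D G)
    (hg : ∀ (v : Fin c × (Fin m → F)) (w : G.Walk v v), w.IsCycle → 2 * k < w.length)
    (hne : ∃ x y, G.Adj x y) :
    (Fintype.card F ^ (m - s * D) - 2) ^ k ≤ Nat.card {x // ∃ y, G.Adj x y} := by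
  obtain ⟨x, y, hxy⟩ := hne
  set W : Finset (Fin c × (Fin m → F)) := univ.filter fun x => ∃ y, G.Adj x y with hW
  obtain ⟨E, hE, hE'⟩ := Pool.Agent.H268R2.LB.growth hg W (Fintype.card F ^ (m - s * D) - 1)
    (by
      intro z hz
      rw [hW, mem_filter] at hz
      obtain ⟨-, t, ht⟩ := hz
      refine (deg hG ht).trans (card_le_card fun u hu => ?_)
      rw [mem_filter] at hu ⊢
      refine ⟨?_, hu.2⟩
      rw [hW, mem_filter]
      exact ⟨mem_univ _, z, hu.2.symm⟩) (v := x)
    (by rw [hW, mem_filter]; exact ⟨mem_univ _, y, hxy⟩) k le_rfl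
  have h1 : E ⊆ W := fun y hy => (hE' y hy).1
  have h2 := card_le_card h1
  rw [Nat.card_eq_fintype_card, Fintype.card_subtype]
  have e : Fintype.card F ^ (m - s * D) - 2 = Fintype.card F ^ (m - s * D) - 1 - 1 := by omega
  rw [e]
  exact hE.trans h2

open Classical in
theorem nonisol (hG : LocLow s D G) :
    Nat.card {x // ∃ y, G.Adj x y} * (Fintype.card F ^ (m - s * D) - 1) ≤
      2 * Nat.card G.edgeSet := by
  have h1 := G.sum_degrees_eq_twice_card_edges
  have h2 : Nat.card G.edgeSet = G.edgeFinset.card := by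
    rw [Nat.card_eq_fintype_card, ← SimpleGraph.edgeFinset_card]
  rw [h2, ← h1, Nat.card_eq_fintype_card, Fintype.card_subtype]
  calc (univ.filter fun x => ∃ y, G.Adj x y).card * (Fintype.card F ^ (m - s * D) - 1)
      = ∑ _x ∈ univ.filter (fun x => ∃ y, G.Adj x y), (Fintype.card F ^ (m - s * D) - 1) := by
        rw [sum_const, smul_eq_mul]
    _ ≤ ∑ x ∈ univ.filter (fun x => ∃ y, G.Adj x y), G.degree x := by
        refine sum_le_sum fun x hx => ?_
        obtain ⟨-, y, hy⟩ := mem_filter.1 hx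
        refine (deg hG hy).trans (le_of_eq ?_)
        rw [← SimpleGraph.card_neighborFinset_eq_degree]
        congr 1
        ext z
        simp
    _ ≤ ∑ x, G.degree x := sum_le_sum_of_subset (filter_subset _ _)

theorem two_le_q (F : Type) [Field F] [Fintype F] : 2 ≤ Fintype.card F := Fintype.one_lt_card

theorem card_V (F : Type) [Field F] [Fintype F] (c m : ℕ) :
    Nat.card (Fin c × (Fin m → F)) = c * Fintype.card F ^ m := by
  rw [Nat.card_prod, Nat.card_eq_fintype_card, Fintype.card_fin, Nat.card_fun,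
    Nat.card_eq_fintype_card, Nat.card_eq_fintype_card, Fintype.card_fin]

theorem moore' (hG : LocLow s D G)
    (hg : ∀ (v : Fin c × (Fin m → F)) (w : G.Walk v v), w.IsCycle → 2 * k < w.length)
    (hne : ∃ x y, G.Adj x y) :
    Fintype.card F ^ (k * (m - s * D - 1)) ≤ c * Fintype.card F ^ m := by
  have hq := two_le_q F
  have h1 := moore hG hg hne
  have h2 : Nat.card {x // ∃ y, G.Adj x y} ≤ c * Fintype.card F ^ m := by
    rw [← card_V F c m]
    exact Nat.card_le_card_of_injective _ Subtype.val_injective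
  obtain ⟨x, y, hxy⟩ := hne
  have h0 : 1 ≤ c * Fintype.card F ^ m := by
    rw [← card_V F c m]
    have : Nonempty (Fin c × (Fin m → F)) := ⟨x⟩
    exact Nat.card_pos
  rcases Nat.lt_or_ge (m - s * D) 2 with h | h
  · have e : m - s * D - 1 = 0 := by omega
    rw [e, Nat.mul_zero, pow_zero]
    exact h0
  · refine le_trans ?_ (h1.trans h2)
    rw [mul_comm, pow_mul]
    refine Nat.pow_le_pow_left ?_ k
    obtain ⟨a, ha⟩ : ∃ a, m - s * D = a + 2 := ⟨m - s * D - 2, by omega⟩
    rw [ha, show a + 2 - 1 = a + 1 by omega, pow_succ (Fintype.card F) (a + 1)]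
    have h3 : 2 ≤ Fintype.card F ^ (a + 1) := by
      calc 2 ≤ Fintype.card F := hq
        _ ≤ Fintype.card F ^ (a + 1) := Nat.le_self_pow (by omega) _
    have h4 : Fintype.card F ^ (a + 1) * 2 ≤ Fintype.card F ^ (a + 1) * Fintype.card F :=
      Nat.mul_le_mul_left _ hq
    omega

theorem exponent (hG : LocLow s D G)
    (hg : ∀ (v : Fin c × (Fin m → F)) (w : G.Walk v v), w.IsCycle → 2 * k < w.length)
    (hne : ∃ x y, G.Adj x y) {b : ℕ} (hb : c ≤ Fintype.card F ^ b) :
    (k - 1) * m ≤ k * (s * D + 1) + b := by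
  have hq := two_le_q F
  have h1 := moore' hG hg hne
  have h2 : Fintype.card F ^ (k * (m - s * D - 1)) ≤ Fintype.card F ^ (b + m) := by
    rw [pow_add]
    exact h1.trans (Nat.mul_le_mul_right _ hb)
  have h3 := (Nat.pow_le_pow_iff_right (by omega)).1 h2
  have h4 : m ≤ (m - s * D - 1) + (s * D + 1) := by omega
  have h5 := Nat.mul_le_mul_left k h4
  rw [Nat.mul_add] at h5
  rw [Nat.sub_mul, one_mul]
  omega

/-- Graphs without isolated vertices whose degree is as small as possible for their girth have the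
order of size of the girth conjecture. -/
theorem extremal (hG : LocLow s D G) (hc : 1 ≤ c) (hk : 1 ≤ k)
    (hne : ∀ x, ∃ y, G.Adj x y) {C : ℕ} (hs : k * (s * D) ≤ (k - 1) * m + k * C) :
    (1 / (4 * (Fintype.card F : ℝ) ^ C * c)) *
      (Nat.card (Fin c × (Fin m → F)) : ℝ) ^ (1 + 1 / (k : ℝ)) ≤ Nat.card G.edgeSet := by
  classical
  have hq := two_le_q F
  set q : ℝ := (Fintype.card F : ℝ) with hqd
  have hq2 : (2 : ℝ) ≤ q := by rw [hqd]; exact_mod_cast hq
  have hq0 : 0 < q := by linarith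
  have hk0 : (0 : ℝ) < k := by exact_mod_cast hk
  set N : ℝ := (Nat.card (Fin c × (Fin m → F)) : ℝ) with hN
  have hNe : N = c * q ^ m := by rw [hN, card_V F c m]; push_cast; rfl
  have hc0 : (1 : ℝ) ≤ c := by exact_mod_cast hc
  have hN0 : 0 < N := by rw [hNe]; positivity
  have h1 : N * ((Fintype.card F ^ (m - s * D) - 1 : ℕ) : ℝ) ≤ 2 * Nat.card G.edgeSet := by
    have h := nonisol hG
    have e : Nat.card {x // ∃ y, G.Adj x y} = Nat.card (Fin c × (Fin m → F)) :=
      Nat.card_congr (Equiv.subtypeUnivEquiv hne)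
    rw [e] at h
    rw [hN]
    exact_mod_cast h
  have h1' : N ≤ 2 * Nat.card G.edgeSet := by
    have h := G.sum_degrees_eq_twice_card_edges
    have h2 : Nat.card G.edgeSet = G.edgeFinset.card := by
      rw [Nat.card_eq_fintype_card, ← SimpleGraph.edgeFinset_card]
    have h3 : Fintype.card (Fin c × (Fin m → F)) ≤ ∑ x, G.degree x := by
      calc Fintype.card (Fin c × (Fin m → F)) = ∑ _x : Fin c × (Fin m → F), 1 := by simp
        _ ≤ _ := by
          refine sum_le_sum fun x _ => ?_
          obtain ⟨y, hy⟩ := hne x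
          exact (G.degree_pos_iff_exists_adj x).2 ⟨y, hy⟩
    rw [h, ← h2] at h3
    rw [hN, Nat.card_eq_fintype_card]
    exact_mod_cast h3
  -- `q ^ (m / k - C) / 4 * N ≤ e`
  have h4 : q ^ ((m : ℝ) / k - C) * N ≤ 4 * Nat.card G.edgeSet := by
    have h5 : (m : ℝ) / k - C ≤ ((m - s * D : ℕ) : ℝ) := by
      have h6 : (m : ℝ) - s * D ≤ ((m - s * D : ℕ) : ℝ) := by
        have : (m : ℝ) ≤ ((m - s * D : ℕ) : ℝ) + s * D := by
          exact_mod_cast (by omega : m ≤ (m - s * D) + s * D)
        linarith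
      have h7 : (k : ℝ) * (s * D) ≤ (k - 1) * m + k * C := by
        have : ((k * (s * D) : ℕ) : ℝ) ≤ (((k - 1) * m + k * C : ℕ) : ℝ) := by exact_mod_cast hs
        rw [Nat.cast_add, Nat.cast_mul (k - 1) m, Nat.cast_sub hk] at this
        push_cast at this
        exact this
      have h8 : (m : ℝ) / k - C ≤ m - s * D := by
        rw [div_sub' hk0.ne', div_le_iff₀ hk0]
        nlinarith
      exact h8.trans h6
    rcases Nat.eq_zero_or_pos (m - s * D) with h0 | hpos
    · rw [h0, Nat.cast_zero] at h5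
      have h9 : q ^ ((m : ℝ) / k - C) ≤ 1 :=
        Real.rpow_le_one_of_one_le_of_nonpos (by linarith) h5
      calc q ^ ((m : ℝ) / k - C) * N ≤ 1 * N := mul_le_mul_of_nonneg_right h9 hN0.le
        _ ≤ 4 * Nat.card G.edgeSet := by
          have : (0 : ℝ) ≤ Nat.card G.edgeSet := Nat.cast_nonneg _
          linarith
    · have h9 : q ^ ((m : ℝ) / k - C) ≤ q ^ (m - s * D) := by
        rw [← Real.rpow_natCast q (m - s * D)]
        exact Real.rpow_le_rpow_of_exponent_le (by linarith) h5
      have h10 : q ^ (m - s * D) ≤ 2 * ((Fintype.card F ^ (m - s * D) - 1 : ℕ) : ℝ) := by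
        have h11 : 2 ≤ Fintype.card F ^ (m - s * D) :=
          le_trans hq (Nat.le_self_pow (by omega) _)
        rw [Nat.cast_sub (by omega)]
        push_cast
        have h12 : (2 : ℝ) ≤ (Fintype.card F : ℝ) ^ (m - s * D) := by exact_mod_cast h11
        rw [hqd]
        linarith
      calc q ^ ((m : ℝ) / k - C) * N ≤ (2 * ((Fintype.card F ^ (m - s * D) - 1 : ℕ) : ℝ)) * N :=
            mul_le_mul_of_nonneg_right (h9.trans h10) hN0.le
        _ ≤ 4 * Nat.card G.edgeSet := by linarith
  have h13 : N ^ (1 + 1 / (k : ℝ)) ≤ c * q ^ C * (q ^ ((m : ℝ) / k - C) * N) := by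
    rw [Real.rpow_add hN0, Real.rpow_one]
    have h14 : N ^ (1 / (k : ℝ)) ≤ c * q ^ ((m : ℝ) / k) := by
      rw [hNe, Real.mul_rpow (by positivity) (by positivity)]
      have h15 : (c : ℝ) ^ (1 / (k : ℝ)) ≤ c := by
        conv_rhs => rw [← Real.rpow_one (c : ℝ)]
        refine Real.rpow_le_rpow_of_exponent_le hc0 ?_
        rw [div_le_one hk0]
        exact_mod_cast hk
      have h16 : (q ^ m) ^ (1 / (k : ℝ)) = q ^ ((m : ℝ) / k) := by
        rw [← Real.rpow_natCast, ← Real.rpow_mul hq0.le]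
        congr 1
        ring
      rw [h16]
      exact mul_le_mul_of_nonneg_right h15 (by positivity)
    have h17 : q ^ ((m : ℝ) / k) = q ^ C * q ^ ((m : ℝ) / k - C) := by
      rw [← Real.rpow_natCast q C, ← Real.rpow_add hq0]
      congr 1
      ring
    calc N * N ^ (1 / (k : ℝ)) ≤ N * (c * q ^ ((m : ℝ) / k)) :=
          mul_le_mul_of_nonneg_left h14 hN0.le
      _ = _ := by rw [h17]; ring
  have h18 : 0 < 4 * q ^ C * (c : ℝ) := by positivity
  rw [one_div, inv_mul_le_iff₀ h18]
  calc N ^ (1 + 1 / (k : ℝ)) ≤ c * q ^ C * (q ^ ((m : ℝ) / k - C) * N) := h13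
    _ ≤ c * q ^ C * (4 * Nat.card G.edgeSet) :=
        mul_le_mul_of_nonneg_left h4 (by positivity)
    _ = _ := by ring

end Pool.Agent.X49.Alg
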