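import Pool.Agent.X49.Alg.Girth

set_option autoImplicit false

/-!
# Graphs without isolated vertices with neighbourhoods of low degree have many edges
-/

namespace Pool.Agent.X49.Alg

open Finset MvPolynomial

variable {F : Type} [Field F] [Fintype F] {c m s D : ℕ}
  {G : SimpleGraph (Fin c × (Fin m → F))}

theorem many_edges (hG : LocLow s D G) (hc : 1 ≤ c)
    (hne : ∀ x, ∃ y, G.Adj x y) {C : ℕ} {θ : ℝ} (h0 : 0 ≤ θ) (h1 : θ ≤ 1)
    (hs : (s * D : ℝ) ≤ (1 - θ) * m + C) :
    (1 / (4 * (Fintype.card F : ℝ) ^ C * c)) *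
      (Nat.card (Fin c × (Fin m → F)) : ℝ) ^ (1 + θ) ≤ Nat.card G.edgeSet := by
  classical
  have hq := two_le_q F
  set q : ℝ := (Fintype.card F : ℝ) with hqd
  have hq2 : (2 : ℝ) ≤ q := by rw [hqd]; exact_mod_cast hq
  have hq0 : 0 < q := by linarith
  set N : ℝ := (Nat.card (Fin c × (Fin m → F)) : ℝ) with hN
  have hNe : N = c * q ^ m := by rw [hN, card_V F c m]; push_cast; rfl
  have hc0 : (1 : ℝ) ≤ c := by exact_mod_cast hc
  have hN0 : 0 < N := by rw [hNe]; positivity
  have h1' : N * ((Fintype.card F ^ (m - s * D) - 1 : ℕ) : ℝ) ≤ 2 * Nat.card G.edgeSet := by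
    have h := nonisol hG
    have e : Nat.card {x // ∃ y, G.Adj x y} = Nat.card (Fin c × (Fin m → F)) :=
      Nat.card_congr (Equiv.subtypeUnivEquiv hne)
    rw [e] at h
    rw [hN]
    exact_mod_cast h
  have h2' : N ≤ 2 * Nat.card G.edgeSet := by
    have h := G.sum_degrees_eq_twice_card_edges
    have h2 : Nat.card G.edgeSet = G.edgeFinset.card := by
      rw [Nat.card_eq_fintype_card, ← SimpleGraph.edgeFinset_card]
    have h3 : Fintype.card (Fin c × (Fin m → F)) ≤ ∑ x, G.degree x := by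
      calc Fintype.card (Fin c × (Fin m → F)) = ∑ _x : Fin c × (Fin m → F), 1 := by simp
        _ ≤ _ := by
          refine sum_le_sum fun x _ => ?_
          obtain ⟨y, hy⟩ := hne x
          exact (G.degree_pos_iff_exists_adj x).2 ⟨y, hy⟩
    rw [h, ← h2] at h3
    rw [hN, Nat.card_eq_fintype_card]
    exact_mod_cast h3
  have h4 : q ^ (θ * m - C) * N ≤ 4 * Nat.card G.edgeSet := by
    have h5 : θ * m - C ≤ ((m - s * D : ℕ) : ℝ) := by
      have h6 : (m : ℝ) - s * D ≤ ((m - s * D : ℕ) : ℝ) := by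
        have : (m : ℝ) ≤ ((m - s * D : ℕ) : ℝ) + s * D := by
          exact_mod_cast (by omega : m ≤ (m - s * D) + s * D)
        linarith
      nlinarith
    rcases Nat.eq_zero_or_pos (m - s * D) with h0 | hpos
    · rw [h0, Nat.cast_zero] at h5
      have h9 : q ^ (θ * m - C) ≤ 1 :=
        Real.rpow_le_one_of_one_le_of_nonpos (by linarith) h5
      calc q ^ (θ * m - C) * N ≤ 1 * N := mul_le_mul_of_nonneg_right h9 hN0.le
        _ ≤ 4 * Nat.card G.edgeSet := by
          have : (0 : ℝ) ≤ Nat.card G.edgeSet := Nat.cast_nonneg _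
          linarith
    · have h9 : q ^ (θ * m - C) ≤ q ^ (m - s * D) := by
        rw [← Real.rpow_natCast q (m - s * D)]
        exact Real.rpow_le_rpow_of_exponent_le (by linarith) h5
      have h10 : q ^ (m - s * D) ≤ 2 * ((Fintype.card F ^ (m - s * D) - 1 : ℕ) : ℝ) := by
        have h11 : 2 ≤ Fintype.card F ^ (m - s * D) :=
          le_trans hq (Nat.le_self_pow (by omega) _)
        rw [Nat.cast_sub (by omega)]
        push_cast
        have h12 : (2 : ℝ) ≤ (Fintype.card F : ℝ) ^ (m - s * D) := by exact_mod_cast h11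
        rw [hqd]
        linarith
      calc q ^ (θ * m - C) * N ≤ (2 * ((Fintype.card F ^ (m - s * D) - 1 : ℕ) : ℝ)) * N :=
            mul_le_mul_of_nonneg_right (h9.trans h10) hN0.le
        _ ≤ 4 * Nat.card G.edgeSet := by linarith
  have h13 : N ^ (1 + θ) ≤ c * q ^ C * (q ^ (θ * m - C) * N) := by
    rw [Real.rpow_add hN0, Real.rpow_one]
    have h14 : N ^ θ ≤ c * q ^ (θ * m) := by
      rw [hNe, Real.mul_rpow (by positivity) (by positivity)]
      have h15 : (c : ℝ) ^ θ ≤ c := by
        conv_rhs => rw [← Real.rpow_one (c : ℝ)]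
        exact Real.rpow_le_rpow_of_exponent_le hc0 h1
      have h16 : (q ^ m) ^ θ = q ^ (θ * m) := by
        rw [← Real.rpow_natCast, ← Real.rpow_mul hq0.le, mul_comm]
      rw [h16]
      exact mul_le_mul_of_nonneg_right h15 (by positivity)
    have h17 : q ^ (θ * m) = q ^ C * q ^ (θ * m - C) := by
      rw [← Real.rpow_natCast q C, ← Real.rpow_add hq0]
      congr 1
      ring
    rw [h17] at h14
    calc N * N ^ θ ≤ N * (c * (q ^ C * q ^ (θ * m - C))) :=
          mul_le_mul_of_nonneg_left h14 hN0.le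
      _ = c * q ^ C * (q ^ (θ * m - C) * N) := by ring
  rw [div_mul_eq_mul_div, one_mul, div_le_iff₀ (by positivity)]
  calc N ^ (1 + θ) ≤ c * q ^ C * (q ^ (θ * m - C) * N) := h13
    _ ≤ c * q ^ C * (4 * Nat.card G.edgeSet) := mul_le_mul_of_nonneg_left h4 (by positivity)
    _ = Nat.card G.edgeSet * (4 * q ^ C * c) := by ring

end Pool.Agent.X49.Alg
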