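import Pool.Agent.X49.Alg.Loc
import Pool.Agent.H268R2.LB.Example

set_option autoImplicit false

/-!
# Incidence graphs given by functions which are affine in both arguments
-/

namespace Pool.Agent.X49.Alg

open Finset MvPolynomial

section affine
variable {F : Type} [Field F] {m s : ℕ}

/-- the zero set of an affine map -/
theorem lowSet_affine (l : (Fin m → F) →ₗ[F] (Fin s → F)) (t : Fin s → F) :
    LowSet s 1 {v | l v + t = 0} := by
  classical
  refine ⟨fun j => ∑ i, C (l (Pi.single i 1) j) * X i + C (t j), {0}, fun j => ?_, fun y => ?_⟩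
  · refine (totalDegree_add _ _).trans (max_le ?_ ?_)
    · refine totalDegree_finsetSum_le fun i _ => ?_
      refine (totalDegree_mul _ _).trans ?_
      rw [totalDegree_C, zero_add]
      exact (totalDegree_X _).le
    · rw [totalDegree_C]; exact Nat.zero_le _
  · have h : (fun j => eval y (∑ i, C (l (Pi.single i 1) j) * X i + C (t j))) = l y + t := by
      funext j
      simp only [map_add, map_sum, map_mul, eval_C, eval_X, Pi.add_apply]
      congr 1
      conv_rhs => rw [LinearMap.pi_apply_eq_sum_univ l y]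
      rw [Finset.sum_apply]
      refine Finset.sum_congr rfl fun i _ => ?_
      have e : (fun j => if i = j then (1 : F) else 0) = Pi.single i 1 := by
        funext k
        rw [Pi.single_apply]
        simp only [eq_comm]
      rw [Pi.smul_apply, smul_eq_mul, mul_comm, e]
    rw [Set.mem_ofPred_eq, h, Set.mem_singleton_iff]

theorem lowSet_empty (s D : ℕ) : LowSet s D (∅ : Set (Fin m → F)) :=
  ⟨fun _ => 0, ∅, fun _ => by simp, fun y => by simp⟩

end affine

/-- the incidence graph of a relation -/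
def BG {X : Type} (Inc : X → X → Prop) : SimpleGraph (Fin 2 × X) where
  Adj x y := (x.1 = 0 ∧ y.1 = 1 ∧ Inc x.2 y.2) ∨ (x.1 = 1 ∧ y.1 = 0 ∧ Inc y.2 x.2)
  symm := ⟨by
    rintro x y (⟨h1, h2, h3⟩ | ⟨h1, h2, h3⟩)
    · exact Or.inr ⟨h2, h1, h3⟩
    · exact Or.inl ⟨h2, h1, h3⟩⟩
  loopless := ⟨by
    rintro x (⟨h1, h2, h3⟩ | ⟨h1, h2, h3⟩)
    · rw [h1] at h2; exact absurd h2 (by decide)
    · rw [h1] at h2; exact absurd h2 (by decide)⟩

theorem BG_loc {F : Type} [Field F] {m s : ℕ} (Inc : (Fin m → F) → (Fin m → F) → Prop)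
    (h1 : ∀ x, ∃ (l : (Fin m → F) →ₗ[F] (Fin s → F)) (t : Fin s → F),
      ∀ y, Inc x y ↔ l y + t = 0)
    (h2 : ∀ y, ∃ (l : (Fin m → F) →ₗ[F] (Fin s → F)) (t : Fin s → F),
      ∀ x, Inc x y ↔ l x + t = 0) : LocLow s 1 (BG Inc) := by
  rintro ⟨a, x⟩ i
  have ha : a = 0 ∨ a = 1 := by omega
  have hi : i = 0 ∨ i = 1 := by omega
  rcases ha with rfl | rfl <;> rcases hi with rfl | rfl
  · refine ⟨∅, lowSet_empty _ _, fun y _ => ?_⟩
    simp [BG]
  · obtain ⟨l, t, h⟩ := h1 x
    refine ⟨_, lowSet_affine l t, fun y _ => ?_⟩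
    rw [Set.mem_ofPred_eq, ← h y]
    simp [BG]
  · obtain ⟨l, t, h⟩ := h2 x
    refine ⟨_, lowSet_affine l t, fun y _ => ?_⟩
    rw [Set.mem_ofPred_eq, ← h y]
    simp [BG]
  · refine ⟨∅, lowSet_empty _ _, fun y _ => ?_⟩
    simp [BG]

/-- no quadrangles -/
def No4 {X : Type} (Inc : X → X → Prop) : Prop :=
  ∀ P P' L L' : X, Inc P L → Inc P' L → Inc P' L' → Inc P L' → P ≠ P' → L ≠ L' → False

/-- no hexagons -/
def No6 {X : Type} (Inc : X → X → Prop) : Prop :=
  ∀ P P' P'' L L' L'' : X, Inc P L → Inc P' L → Inc P' L' → Inc P'' L' → Inc P'' L'' →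
    Inc P L'' → P ≠ P' → L ≠ L' → P' ≠ P'' → L' ≠ L'' → P'' ≠ P → L'' ≠ L → False

theorem BG_seq {X : Type} (Inc : X → X → Prop) {v : Fin 2 × X} {w : (BG Inc).Walk v v}
    (hw : w.IsCycle) : ∃ x : ℕ → X, (∀ i, x i ≠ x (i + 2)) ∧ (∀ i, Even i → Inc (x i) (x (i + 1)))
      ∧ (∀ i, ¬ Even i → Inc (x (i + 1)) (x i)) ∧ (∀ i, x (i + w.length) = x i) ∧
      Even w.length := by
  obtain ⟨x, hA, hN, hper⟩ := Pool.Agent.H268R2.LB.Ex.cycle_fun hw
  have side : ∀ i, (x i).1 = 0 ↔ (x (i + 1)).1 = 1 := by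
    intro i
    rcases hA i with h | h
    · simp [h.1, h.2.1]
    · simp [h.1, h.2.1]
  have side' : ∀ i, (x i).1 = 1 ↔ (x (i + 1)).1 = 0 := by
    intro i
    rcases hA i with h | h
    · simp [h.1, h.2.1]
    · simp [h.1, h.2.1]
  obtain ⟨x, hA, hN, hper, side, side', hl⟩ : ∃ x : ℕ → Fin 2 × X,
      (∀ i, (BG Inc).Adj (x i) (x (i + 1))) ∧
      (∀ i, x i ≠ x (i + 2)) ∧ (∀ i, x (i + w.length) = x i) ∧
      (∀ i, (x i).1 = 0 ↔ (x (i + 1)).1 = 1) ∧ (∀ i, (x i).1 = 1 ↔ (x (i + 1)).1 = 0) ∧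
      (x 0).1 = 0 := by
    by_cases h : (x 0).1 = 0
    · exact ⟨x, hA, hN, hper, side, side', h⟩
    · have h1 : (x 0).1 = 1 := by omega
      refine ⟨fun i => x (i + 1), fun i => hA (i + 1), fun i => ?_, fun i => ?_,
        fun i => side (i + 1), fun i => side' (i + 1), ?_⟩
      · have := hN (i + 1)
        rwa [show i + 1 + 2 = i + 2 + 1 by ring] at this
      · have := hper (i + 1)
        rwa [show i + 1 + w.length = i + w.length + 1 by ring] at this
      · exact (side' 0).1 h1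
  have hpar : ∀ i, ((Even i → (x i).1 = 0) ∧ (¬ Even i → (x i).1 = 1)) := by
    intro i
    induction i with
    | zero => exact ⟨fun _ => hl, fun h => absurd (by simp) h⟩
    | succ i ih =>
      constructor
      · intro h
        exact (side' i).1 (ih.2 (fun h' => by rw [Nat.even_add_one] at h; exact h h'))
      · intro h
        exact (side i).1 (ih.1 (by rw [Nat.even_add_one] at h; exact not_not.1 h))
  refine ⟨fun i => (x i).2, fun i e => ?_, fun i hi => ?_, fun i hi => ?_, fun i => ?_, ?_⟩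
  · refine hN i (Prod.ext ?_ e)
    by_cases hi : Even i
    · rw [(hpar i).1 hi, (hpar (i + 2)).1 (hi.add even_two)]
    · rw [(hpar i).2 hi, (hpar (i + 2)).2 (fun h => hi ((Nat.even_add.1 h).2 even_two))]
  · rcases hA i with h | h
    · exact h.2.2
    · exfalso; rw [(hpar i).1 hi] at h; exact absurd h.1 (by decide)
  · rcases hA i with h | h
    · exfalso; rw [(hpar i).2 hi] at h; exact absurd h.1 (by decide)
    · exact h.2.2
  · simp only [hper i]
  · by_contra h
    have h1 := (hpar w.length).2 h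
    have h2 := hper 0
    rw [zero_add] at h2
    rw [h2, hl] at h1
    exact absurd h1 (by decide)

theorem BG_four {X : Type} {Inc : X → X → Prop} (h4 : No4 Inc) {v : Fin 2 × X}
    {w : (BG Inc).Walk v v} (hw : w.IsCycle) : 4 < w.length := by
  have h3 := hw.three_le_length
  obtain ⟨x, hN, hI, hJ, hper, hev⟩ := BG_seq Inc hw
  by_contra hlt
  have hc : w.length = 4 := by
    rcases (by omega : w.length = 3 ∨ w.length = 4) with h | h
    · rw [h] at hev; exact absurd hev (by decide)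
    · exact h
  rw [hc] at hper
  have i4 := hJ 3 (by decide)
  have e := hper 0
  rw [zero_add] at e
  rw [show 3 + 1 = 4 from rfl, e] at i4
  exact h4 _ _ _ _ (hI 0 (by decide)) (hJ 1 (by decide)) (hI 2 (by decide)) i4 (hN 0) (hN 1)

theorem BG_six {X : Type} {Inc : X → X → Prop} (h4 : No4 Inc) (h6 : No6 Inc) {v : Fin 2 × X}
    {w : (BG Inc).Walk v v} (hw : w.IsCycle) : 6 < w.length := by
  have h3 := BG_four h4 hw
  obtain ⟨x, hN, hI, hJ, hper, hev⟩ := BG_seq Inc hw
  by_contra hlt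
  have hc : w.length = 6 := by
    rcases (by omega : w.length = 5 ∨ w.length = 6) with h | h
    · rw [h] at hev; exact absurd hev (by decide)
    · exact h
  rw [hc] at hper
  have i4 := hJ 5 (by decide)
  have e := hper 0
  have e1 := hper 1
  rw [zero_add] at e
  rw [show 5 + 1 = 6 from rfl, e] at i4
  have n4 := hN 4
  rw [show 4 + 2 = 6 from rfl, e] at n4
  have n5 := hN 5
  rw [show 5 + 2 = 1 + 6 from rfl, e1] at n5
  exact h6 _ _ _ _ _ _ (hI 0 (by decide)) (hJ 1 (by decide)) (hI 2 (by decide))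
    (hJ 3 (by decide)) (hI 4 (by decide)) i4 (hN 0) (hN 1) (hN 2) (hN 3) n4 n5

theorem BG_deg {X : Type} (Inc : X → X → Prop) (d : ℕ)
    (h1 : ∀ P, Nat.card {L // Inc P L} = d) (h2 : ∀ L, Nat.card {P // Inc P L} = d)
    (x : Fin 2 × X) : Nat.card {y // (BG Inc).Adj x y} = d := by
  obtain ⟨a, x⟩ := x
  have ha : a = 0 ∨ a = 1 := by omega
  rcases ha with rfl | rfl
  · rw [← h1 x]
    refine Nat.card_congr ⟨fun y => ⟨y.1.2, ?_⟩, fun L => ⟨(1, L.1), ?_⟩, fun y => ?_, fun L => ?_⟩
    · have := y.2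
      simp only [BG, zero_ne_one, false_and, or_false, true_and] at this
      exact this.2
    · exact Or.inl ⟨rfl, rfl, L.2⟩
    · have := y.2
      simp only [BG, zero_ne_one, false_and, or_false, true_and] at this
      exact Subtype.ext (Prod.ext this.1.symm rfl)
    · rfl
  · rw [← h2 x]
    refine Nat.card_congr ⟨fun y => ⟨y.1.2, ?_⟩, fun L => ⟨(0, L.1), ?_⟩, fun y => ?_, fun L => ?_⟩
    · have := y.2
      simp only [BG, one_ne_zero, false_and, false_or, true_and] at this
      exact this.2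
    · exact Or.inr ⟨rfl, rfl, L.2⟩
    · have := y.2
      simp only [BG, one_ne_zero, false_and, false_or, true_and] at this
      exact Subtype.ext (Prod.ext this.1.symm rfl)
    · rfl

end Pool.Agent.X49.Alg
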