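import Pool.Agent.X49.Alg.Embed

set_option autoImplicit false

/-!
# Certificates of low degree in arbitrary graphs without a bipartite subgraph
-/

namespace Pool.Agent.X49.Alg

open Finset MvPolynomial

variable {F : Type} [Field F] [Fintype F] {c m s D : ℕ}
  {G : SimpleGraph (Fin c × (Fin m → F))}

/-- The edge from `x` to `y` has a certificate of type `(s, D)`: a set of type `(s, D)` in the copy
of `y` which contains `y` and is contained in the neighbourhood of `x` (up to `x` itself). -/
def Cert (s D : ℕ) (G : SimpleGraph (Fin c × (Fin m → F))) (x y : Fin c × (Fin m → F)) : Prop :=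
  G.Adj x y ∧ ∃ A : Set (Fin m → F), LowSet s D A ∧ y.2 ∈ A ∧
    ∀ a ∈ A, (y.1, a) ≠ x → G.Adj x (y.1, a)

theorem cert_of_loc (hG : LocLow s D G) {x y : Fin c × (Fin m → F)} (h : G.Adj x y) :
    Cert s D G x y := by
  refine ⟨h, ?_⟩
  obtain ⟨j, b⟩ := y
  obtain ⟨A, hA, hA'⟩ := hG x j
  exact ⟨A, hA, (hA' b (fun e => G.ne_of_adj h e.symm)).1 h, fun a ha hne => (hA' a hne).2 ha⟩

open Classical in
theorem embed_cert {W : Type} [Fintype W] (H : SimpleGraph W) (side : W → Bool)
    (hside : ∀ u v, H.Adj u v → side u ≠ side v) {r : ℕ}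
    (hdeg : ∀ u, side u = true → Nat.card {v // H.Adj u v} ≤ r)
    (y : Fin c × (Fin m → F)) (g : {w : W // side w = false} → Fin c × (Fin m → F))
    (hg : Function.Injective g) (hgc : ∀ w, Cert s D G (g w) y)
    (hcard : Fintype.card W ≤ Fintype.card F ^ (m - r * (s * D))) : H.IsContained G := by
  have hq : 1 ≤ Fintype.card F := Fintype.card_pos
  have hsplit : Fintype.card {w : W // side w = true} + Fintype.card {w : W // side w = false} =
      Fintype.card W := by
    have e1 : Fintype.card {w : W // side w = false} = Fintype.card {w : W // ¬ side w = true} :=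
      Fintype.card_congr (Equiv.subtypeEquivRight fun w => by simp)
    rw [e1, Fintype.card_subtype_compl]
    have := Fintype.card_subtype_le fun w : W => side w = true
    omega
  choose hadj0 B hB hyB hB' using hgc
  let t : {w : W // side w = true} → Finset (Fin c × (Fin m → F)) := fun u =>
    (univ.filter fun a : Fin m → F => ∀ w : {w : W // side w = false}, H.Adj u.1 w.1 →
      a ∈ B w).image fun a => (y.1, a)
  have ht : ∀ u, Fintype.card F ^ (m - r * (s * D)) ≤ (t u).card := by
    intro u
    rw [card_image_of_injective _ (fun a a' e => congrArg Prod.snd e)]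
    have hnb : ∀ v : {v // H.Adj u.1 v}, side v.1 = false := by
      intro v
      have h := hside _ _ v.2
      rw [u.2] at h
      simpa using h.symm
    have h4 := inter (ι := {v // H.Adj u.1 v}) (fun v => B ⟨v.1, hnb v⟩) (fun v => hB _) y.2
      (fun v => hyB _)
    have h5 : Fintype.card {v // H.Adj u.1 v} ≤ r := by
      rw [← Nat.card_eq_fintype_card]
      exact hdeg u.1 u.2
    refine le_trans (Nat.pow_le_pow_right hq ?_) (h4.trans ?_)
    · have := Nat.mul_le_mul_right (s * D) h5
      omega
    · rw [Nat.card_eq_fintype_card, Fintype.card_subtype]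
      refine card_le_card fun a ha => ?_
      rw [mem_filter] at ha ⊢
      exact ⟨mem_univ _, fun w hw => ha.2 ⟨w.1, hw⟩⟩
  obtain ⟨fX, hfX, hfX'⟩ := sdr t (univ.image g) (by
    intro u
    rw [card_image_of_injective _ hg, card_univ]
    have := ht u
    omega)
  let f : W → Fin c × (Fin m → F) := fun w =>
    if h : side w = true then fX ⟨w, h⟩ else g ⟨w, by simpa using h⟩
  have hf1 : ∀ w (h : side w = true), f w = fX ⟨w, h⟩ := fun w h => dif_pos h
  have hf2 : ∀ w (h : side w = false), f w = g ⟨w, h⟩ := fun w h =>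
    dif_neg (by rw [h]; decide)
  have hno : ∀ u w, fX u ≠ g w := by
    intro u w e
    exact (hfX' u).2 (by rw [e]; exact mem_image_of_mem _ (mem_univ _))
  have hadj : ∀ u w, side u = true → side w = false → H.Adj u w → G.Adj (f u) (f w) := by
    intro u w hu hw huw
    rw [hf1 u hu, hf2 w hw]
    have h6 := (hfX' ⟨u, hu⟩).1
    obtain ⟨a, ha, he⟩ := mem_image.1 h6
    rw [mem_filter] at ha
    have h7 := ha.2 ⟨w, hw⟩ huw
    have h8 : (y.1, a) ≠ g ⟨w, hw⟩ := fun e => hno ⟨u, hu⟩ ⟨w, hw⟩ (by rw [← he, e])
    rw [← he]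
    exact (hB' _ a h7 h8).symm
  refine ⟨⟨⟨f, fun {u w} huw => ?_⟩, ?_⟩⟩
  · have h := hside u w huw
    cases hu : side u <;> cases hw : side w
    · rw [hu, hw] at h; exact absurd rfl h
    · exact (hadj w u hw hu huw.symm).symm
    · exact hadj u w hu hw huw
    · rw [hu, hw] at h; exact absurd rfl h
  · intro u w e
    change f u = f w at e
    cases hu : side u <;> cases hw : side w
    · rw [hf2 u hu, hf2 w hw] at e
      exact congrArg Subtype.val (hg e)
    · rw [hf2 u hu, hf1 w hw] at e
      exact absurd e.symm (hno _ _)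
    · rw [hf1 u hu, hf2 w hw] at e
      exact absurd e (hno _ _)
    · rw [hf1 u hu, hf1 w hw] at e
      exact congrArg Subtype.val (hfX e)

open Classical in
/-- at most `b - 1` edges with certificates at every vertex -/
theorem cert_deg {W : Type} [Fintype W] (H : SimpleGraph W) (side : W → Bool)
    (hside : ∀ u v, H.Adj u v → side u ≠ side v) {r b : ℕ}
    (hdeg : ∀ u, side u = true → Nat.card {v // H.Adj u v} ≤ r)
    (hb : Fintype.card {w : W // side w = false} ≤ b)
    (hcard : Fintype.card W ≤ Fintype.card F ^ (m - r * (s * D))) (hfree : H.Free G)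
    (y : Fin c × (Fin m → F)) : Nat.card {x // Cert s D G x y} < b := by
  by_contra hcon
  rw [not_lt] at hcon
  refine hfree ?_
  obtain ⟨g⟩ : Nonempty ({w : W // side w = false} ↪ {x // Cert s D G x y}) := by
    refine Function.Embedding.nonempty_of_card_le ?_
    rw [← Nat.card_eq_fintype_card (α := {x // Cert s D G x y})]
    exact hb.trans hcon
  exact embed_cert H side hside hdeg y (fun w => (g w).1)
    (fun w w' e => g.injective (Subtype.ext e)) (fun w => (g w).2) hcard

open Classical in
/-- the number of the edges with certificates -/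
theorem cert_card {W : Type} [Fintype W] (H : SimpleGraph W) (side : W → Bool)
    (hside : ∀ u v, H.Adj u v → side u ≠ side v) {r b : ℕ}
    (hdeg : ∀ u, side u = true → Nat.card {v // H.Adj u v} ≤ r)
    (hb : Fintype.card {w : W // side w = false} ≤ b)
    (hcard : Fintype.card W ≤ Fintype.card F ^ (m - r * (s * D))) (hfree : H.Free G) :
    Nat.card {p : (Fin c × (Fin m → F)) × (Fin c × (Fin m → F)) // Cert s D G p.1 p.2} ≤
      (b - 1) * Nat.card (Fin c × (Fin m → F)) := by
  have e : {p : (Fin c × (Fin m → F)) × (Fin c × (Fin m → F)) // Cert s D G p.1 p.2} ≃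
      Σ y : Fin c × (Fin m → F), {x // Cert s D G x y} :=
    ⟨fun p => ⟨p.1.2, p.1.1, p.2⟩, fun z => ⟨(z.2.1, z.1), z.2.2⟩, fun _ => rfl, fun _ => rfl⟩
  rw [Nat.card_congr e, Nat.card_sigma]
  refine (Finset.sum_le_sum (g := fun _ => b - 1) fun y _ => ?_).trans ?_
  · have := cert_deg H side hside hdeg hb hcard hfree y
    omega
  · rw [Finset.sum_const, smul_eq_mul, Finset.card_univ, ← Nat.card_eq_fintype_card, mul_comm]

/-- complete bipartite graphs -/
theorem cert_kst {r t : ℕ} (hcard : r + t ≤ Fintype.card F ^ (m - r * (s * D)))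
    (hfree : (completeBipartiteGraph (Fin r) (Fin t)).Free G) :
    (∀ y, Nat.card {x // Cert s D G x y} < r) ∧
    Nat.card {p : (Fin c × (Fin m → F)) × (Fin c × (Fin m → F)) // Cert s D G p.1 p.2} ≤
      (r - 1) * Nat.card (Fin c × (Fin m → F)) := by
  have h1 : ∀ u v, (completeBipartiteGraph (Fin r) (Fin t)).Adj u v → u.isRight ≠ v.isRight := by
    rintro (u | u) (v | v) h <;> simp [completeBipartiteGraph] at h ⊢
  have h2 : ∀ u : Fin r ⊕ Fin t, u.isRight = true →
      Nat.card {v // (completeBipartiteGraph (Fin r) (Fin t)).Adj u v} ≤ r := by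
    rintro (u | u) hu
    · simp at hu
    · have e : Nat.card {v : Fin r ⊕ Fin t // (completeBipartiteGraph (Fin r) (Fin t)).Adj
          (Sum.inr u) v} = r := by
        refine Eq.trans ?_ (Nat.card_fin r)
        refine Nat.card_congr ⟨fun v => ?_, fun i => ⟨Sum.inl i, by simp [completeBipartiteGraph]⟩,
          ?_, ?_⟩
        · obtain ⟨v, hv⟩ := v
          rcases v with v | v
          · exact v
          · exact absurd hv (by simp [completeBipartiteGraph])
        · rintro ⟨v | v, hv⟩
          · rfl
          · exact absurd hv (by simp [completeBipartiteGraph])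
        · intro i
          rfl
      exact e.le
  have h3 : Fintype.card {w : Fin r ⊕ Fin t // w.isRight = false} ≤ r := by
    have e : Fintype.card {w : Fin r ⊕ Fin t // w.isRight = false} ≤ Fintype.card (Fin r) := by
      refine Fintype.card_le_of_surjective (fun i : Fin r => ⟨Sum.inl i, rfl⟩) ?_
      rintro ⟨v | v, hv⟩
      · exact ⟨v, rfl⟩
      · simp at hv
    rwa [Fintype.card_fin] at e
  have h4 : Fintype.card (Fin r ⊕ Fin t) ≤ Fintype.card F ^ (m - r * (s * D)) := by
    rw [Fintype.card_sum, Fintype.card_fin, Fintype.card_fin]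
    exact hcard
  exact ⟨cert_deg _ _ h1 h2 h3 h4 hfree, cert_card _ _ h1 h2 h3 h4 hfree⟩

end Pool.Agent.X49.Alg
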