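import Pool.Agent.X49.Alg.Bip

set_option autoImplicit false

/-!
# Generalised polygons over extension fields: affine conditions in both arguments
-/

namespace Pool.Agent.X49.Alg

open Finset MvPolynomial

section ext
variable (K : Type) [Field K]

/-- incidence in the plane -/
def I2 (P L : K × K) : Prop := P.2 + L.2 = P.1 * L.1

/-- incidence in a generalised quadrangle -/
def I3 (P L : K × K × K) : Prop := P.2.1 + L.2.1 = P.1 * L.1 ∧ P.2.2 + L.2.2 = P.1 * L.2.1

theorem I2_no4 : No4 (I2 K) := by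
  intro P P' L L' h1 h2 h3 h4 hP hL
  unfold I2 at *
  have hp : P.1 ≠ P'.1 := by
    intro h
    apply hP
    refine Prod.ext h ?_
    rw [h] at h1
    linear_combination h1 - h2
  have hl : L.1 ≠ L'.1 := by
    intro h
    apply hL
    refine Prod.ext h ?_
    rw [h] at h1
    linear_combination h1 - h4
  have : (P.1 - P'.1) * (L.1 - L'.1) = 0 := by
    linear_combination (-1) * h1 + h2 - h3 + h4
  rcases mul_eq_zero.mp this with h | h
  · exact hp (sub_eq_zero.mp h)
  · exact hl (sub_eq_zero.mp h)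

theorem I3_P {P P' L : K × K × K} (h1 : I3 K P L) (h2 : I3 K P' L) (h : P.1 = P'.1) :
    P = P' := by
  obtain ⟨a, b⟩ := h1
  obtain ⟨a', b'⟩ := h2
  rw [h] at a b
  refine Prod.ext h (Prod.ext ?_ ?_)
  · linear_combination a - a'
  · linear_combination b - b'

theorem I3_L {P L L' : K × K × K} (h1 : I3 K P L) (h2 : I3 K P L') (h : L.1 = L'.1) :
    L = L' := by
  obtain ⟨a, b⟩ := h1
  obtain ⟨a', b'⟩ := h2
  rw [h] at a
  have e : L.2.1 = L'.2.1 := by linear_combination a - a'
  rw [e] at b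
  refine Prod.ext h (Prod.ext e ?_)
  linear_combination b - b'

theorem I3_no4 : No4 (I3 K) := by
  intro P P' L L' h1 h2 h3 h4 hP hL
  have hp : P.1 ≠ P'.1 := fun h => hP (I3_P K h1 h2 h)
  have hl : L.1 ≠ L'.1 := fun h => hL (I3_L K h1 h4 h)
  have : (P.1 - P'.1) * (L.1 - L'.1) = 0 := by
    linear_combination (-1) * h1.1 + h2.1 - h3.1 + h4.1
  rcases mul_eq_zero.mp this with h | h
  · exact hp (sub_eq_zero.mp h)
  · exact hl (sub_eq_zero.mp h)

theorem I3_no6 : No6 (I3 K) := by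
  have key : ∀ P L : K × K × K, I3 K P L →
      Pool.Agent.H268R2.LB.Ex.Inc K L (P.1, P.2.1, P.2.2 + P.1 * P.2.1) := by
    rintro P L ⟨a, b⟩
    refine ⟨?_, ?_⟩
    · simp only; linear_combination a
    · simp only; linear_combination b + P.1 * a
  have inj : ∀ P P' : K × K × K, P ≠ P' →
      ((P.1, P.2.1, P.2.2 + P.1 * P.2.1) : K × K × K) ≠
        (P'.1, P'.2.1, P'.2.2 + P'.1 * P'.2.1) := by
    intro P P' hne h
    obtain ⟨a, b, c⟩ := P
    obtain ⟨a', b', c'⟩ := P'
    simp only [Prod.mk.injEq] at h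
    obtain ⟨rfl, rfl, h3⟩ := h
    exact hne (by rw [add_right_cancel h3])
  intro P P' P'' L L' L'' h1 h2 h3 h4 h5 h6 a1 b1 a2 b2 a3 b3
  exact Pool.Agent.H268R2.LB.Ex.no6 K (key _ _ h2) (key _ _ h3) (key _ _ h4) (key _ _ h5)
    (key _ _ h6) (key _ _ h1) |> fun f => f b1 (inj _ _ a2) (inj _ _ a1)

theorem I2_card [Finite K] (P : K × K) : Nat.card {L // I2 K P L} = Nat.card K := by
  have mem : ∀ l, I2 K P (l, P.1 * l - P.2) := fun l => by unfold I2; simp only; ring
  refine (Nat.card_congr (Equiv.mk (fun l => ⟨(l, P.1 * l - P.2), mem l⟩) (fun L => L.1.1)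
    (fun l => rfl) (fun L => ?_))).symm
  · obtain ⟨L, hL⟩ := L
    unfold I2 at hL
    refine Subtype.ext (Prod.ext rfl ?_)
    simp only
    linear_combination (-1) * hL

theorem I2_card' [Finite K] (L : K × K) : Nat.card {P // I2 K P L} = Nat.card K := by
  have mem : ∀ l, I2 K (l, l * L.1 - L.2) L := fun l => by unfold I2; simp only; ring
  refine (Nat.card_congr (Equiv.mk (fun l => ⟨(l, l * L.1 - L.2), mem l⟩) (fun P => P.1.1)
    (fun l => rfl) (fun P => ?_))).symm
  · obtain ⟨P, hP⟩ := P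
    unfold I2 at hP
    refine Subtype.ext (Prod.ext rfl ?_)
    simp only
    linear_combination (-1) * hP

theorem I3_card [Finite K] (P : K × K × K) : Nat.card {L // I3 K P L} = Nat.card K := by
  have mem : ∀ l, I3 K P (l, P.1 * l - P.2.1, P.1 * (P.1 * l - P.2.1) - P.2.2) :=
    fun l => ⟨by simp only; ring, by simp only; ring⟩
  refine (Nat.card_congr (Equiv.mk
    (fun l => ⟨(l, P.1 * l - P.2.1, P.1 * (P.1 * l - P.2.1) - P.2.2), mem l⟩)
    (fun L => L.1.1) (fun l => rfl) (fun L => ?_))).symm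
  · obtain ⟨L, hL⟩ := L
    obtain ⟨a, b⟩ := hL
    have e : P.1 * L.1 - P.2.1 = L.2.1 := by linear_combination (-1) * a
    refine Subtype.ext (Prod.ext rfl (Prod.ext e ?_))
    simp only
    rw [e]
    linear_combination (-1) * b

theorem I3_card' [Finite K] (L : K × K × K) : Nat.card {P // I3 K P L} = Nat.card K := by
  have mem : ∀ l, I3 K (l, l * L.1 - L.2.1, l * L.2.1 - L.2.2) L :=
    fun l => ⟨by simp only; ring, by simp only; ring⟩
  refine (Nat.card_congr (Equiv.mk (fun l => ⟨(l, l * L.1 - L.2.1, l * L.2.1 - L.2.2), mem l⟩)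
    (fun P => P.1.1) (fun l => rfl) (fun P => ?_))).symm
  · obtain ⟨P, hP⟩ := P
    obtain ⟨a, b⟩ := hP
    refine Subtype.ext (Prod.ext rfl (Prod.ext ?_ ?_))
    · simp only
      linear_combination (-1) * a
    · simp only
      linear_combination (-1) * b

end ext

theorem transfer {F : Type} [Field F] {m s : ℕ} {X W : Type} [AddCommGroup X] [Module F X]
    [AddCommGroup W] [Module F W] (φ : X ≃ₗ[F] (Fin m → F)) (ψ : W ≃ₗ[F] (Fin s → F))
    (A : X → Prop) (l : X →ₗ[F] W) (t : W) (h : ∀ y, A y ↔ l y + t = 0) :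
    ∃ (l' : (Fin m → F) →ₗ[F] (Fin s → F)) (t' : Fin s → F),
      ∀ y, A (φ.symm y) ↔ l' y + t' = 0 := by
  refine ⟨ψ.toLinearMap ∘ₗ l ∘ₗ φ.symm.toLinearMap, ψ t, fun y => ?_⟩
  rw [h]
  simp only [LinearMap.comp_apply, LinearEquiv.coe_coe]
  rw [← map_add, LinearEquiv.map_eq_zero_iff]

/-- the graph of a relation in coordinates -/
def Gco {F : Type} [Field F] {m : ℕ} {X : Type} [AddCommGroup X] [Module F X]
    (φ : X ≃ₗ[F] (Fin m → F)) (Inc : X → X → Prop) : SimpleGraph (Fin 2 × (Fin m → F)) :=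
  BG fun x y => Inc (φ.symm x) (φ.symm y)

theorem Gco_four {F : Type} [Field F] {m : ℕ} {X : Type} [AddCommGroup X] [Module F X]
    (φ : X ≃ₗ[F] (Fin m → F)) (Inc : X → X → Prop) (h : No4 Inc) :
    No4 fun x y => Inc (φ.symm x) (φ.symm y) :=
  fun P P' L L' h1 h2 h3 h4 hP hL => h _ _ _ _ h1 h2 h3 h4
    (fun e => hP (φ.symm.injective e)) (fun e => hL (φ.symm.injective e))

theorem Gco_six {F : Type} [Field F] {m : ℕ} {X : Type} [AddCommGroup X] [Module F X]
    (φ : X ≃ₗ[F] (Fin m → F)) (Inc : X → X → Prop) (h : No6 Inc) :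
    No6 fun x y => Inc (φ.symm x) (φ.symm y) :=
  fun P P' P'' L L' L'' h1 h2 h3 h4 h5 h6 a1 b1 a2 b2 a3 b3 =>
    h _ _ _ _ _ _ h1 h2 h3 h4 h5 h6
    (fun e => a1 (φ.symm.injective e)) (fun e => b1 (φ.symm.injective e))
    (fun e => a2 (φ.symm.injective e)) (fun e => b2 (φ.symm.injective e))
    (fun e => a3 (φ.symm.injective e)) (fun e => b3 (φ.symm.injective e))

theorem Gco_deg {F : Type} [Field F] {m : ℕ} {X : Type} [AddCommGroup X] [Module F X]
    (φ : X ≃ₗ[F] (Fin m → F)) (Inc : X → X → Prop) (d : ℕ)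
    (h1 : ∀ P, Nat.card {L // Inc P L} = d) (h2 : ∀ L, Nat.card {P // Inc P L} = d)
    (x : Fin 2 × (Fin m → F)) : Nat.card {y // (Gco φ Inc).Adj x y} = d := by
  refine BG_deg _ d (fun P => ?_) (fun L => ?_) x
  · rw [← h1 (φ.symm P)]
    exact Nat.card_congr ((φ.symm.toEquiv).subtypeEquiv fun y => Iff.rfl)
  · rw [← h2 (φ.symm L)]
    exact Nat.card_congr ((φ.symm.toEquiv).subtypeEquiv fun y => Iff.rfl)

/-- **Planes**: graphs without quadrangles on `2 p ^ (2 e)` vertices, all degrees `p ^ e`. -/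
theorem example2 (p : ℕ) [Fact p.Prime] (e : ℕ) (he : 1 ≤ e) :
    ∃ G : SimpleGraph (Fin 2 × (Fin (2 * e) → ZMod p)), LocLow e 1 G ∧
      (∀ (v : Fin 2 × (Fin (2 * e) → ZMod p)) (w : G.Walk v v), w.IsCycle → 4 < w.length) ∧
      ∀ x, Nat.card {y // G.Adj x y} = p ^ e := by
  let K := GaloisField p e
  have hf : Module.finrank (ZMod p) K = e := GaloisField.finrank p (by omega)
  let ψ : K ≃ₗ[ZMod p] (Fin e → ZMod p) :=
    LinearEquiv.ofFinrankEq _ _ (by rw [hf, Module.finrank_fin_fun])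
  let φ : (K × K) ≃ₗ[ZMod p] (Fin (2 * e) → ZMod p) :=
    LinearEquiv.ofFinrankEq _ _ (by rw [Module.finrank_prod, hf, Module.finrank_fin_fun]; ring)
  refine ⟨Gco φ (I2 K), BG_loc _ (fun x => ?_) (fun y => ?_), fun v w hw =>
    BG_four (Gco_four φ _ (I2_no4 K)) hw, fun x => ?_⟩
  · refine transfer φ ψ (fun y => I2 K (φ.symm x) y)
      (LinearMap.snd _ K K - (LinearMap.mulLeft _ (φ.symm x).1) ∘ₗ LinearMap.fst _ K K)
      (φ.symm x).2 fun y => ?_
    simp only [LinearMap.sub_apply, LinearMap.comp_apply, LinearMap.snd_apply,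
      LinearMap.fst_apply, LinearMap.mulLeft_apply, I2]
    constructor
    · intro h; linear_combination h
    · intro h; linear_combination h
  · refine transfer φ ψ (fun x => I2 K x (φ.symm y))
      (LinearMap.snd _ K K - (LinearMap.mulLeft _ (φ.symm y).1) ∘ₗ LinearMap.fst _ K K)
      (φ.symm y).2 fun x => ?_
    simp only [LinearMap.sub_apply, LinearMap.comp_apply, LinearMap.snd_apply,
      LinearMap.fst_apply, LinearMap.mulLeft_apply, I2]
    constructor
    · intro h; linear_combination h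
    · intro h; linear_combination h
  · rw [← GaloisField.card p e (by omega)]
    exact Gco_deg φ _ _ (I2_card K) (I2_card' K) x

/-- **Generalised quadrangles**: graphs without cycles of length at most `6` on `2 p ^ (3 e)`
vertices, all degrees `p ^ e`. -/
theorem example3 (p : ℕ) [Fact p.Prime] (e : ℕ) (he : 1 ≤ e) :
    ∃ G : SimpleGraph (Fin 2 × (Fin (3 * e) → ZMod p)), LocLow (2 * e) 1 G ∧
      (∀ (v : Fin 2 × (Fin (3 * e) → ZMod p)) (w : G.Walk v v), w.IsCycle → 6 < w.length) ∧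
      ∀ x, Nat.card {y // G.Adj x y} = p ^ e := by
  let K := GaloisField p e
  have hf : Module.finrank (ZMod p) K = e := GaloisField.finrank p (by omega)
  let ψ : (K × K) ≃ₗ[ZMod p] (Fin (2 * e) → ZMod p) :=
    LinearEquiv.ofFinrankEq _ _ (by rw [Module.finrank_prod, hf, Module.finrank_fin_fun]; ring)
  let φ : (K × K × K) ≃ₗ[ZMod p] (Fin (3 * e) → ZMod p) :=
    LinearEquiv.ofFinrankEq _ _ (by
      rw [Module.finrank_prod, Module.finrank_prod, hf, Module.finrank_fin_fun]; ring)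
  refine ⟨Gco φ (I3 K), BG_loc _ (fun x => ?_) (fun y => ?_), fun v w hw =>
    BG_six (Gco_four φ _ (I3_no4 K)) (Gco_six φ _ (I3_no6 K)) hw, fun x => ?_⟩
  · refine transfer φ ψ (fun y => I3 K (φ.symm x) y)
      (((LinearMap.fst _ K K ∘ₗ LinearMap.snd _ K (K × K)) -
          (LinearMap.mulLeft _ (φ.symm x).1) ∘ₗ LinearMap.fst _ K (K × K)).prod
        ((LinearMap.snd _ K K ∘ₗ LinearMap.snd _ K (K × K)) -
          (LinearMap.mulLeft _ (φ.symm x).1) ∘ₗ LinearMap.fst _ K K ∘ₗ
            LinearMap.snd _ K (K × K)))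
      (φ.symm x).2 fun y => ?_
    rw [Prod.ext_iff]
    simp only [LinearMap.prod_apply, Function.prod, LinearMap.sub_apply, LinearMap.comp_apply,
      LinearMap.snd_apply, LinearMap.fst_apply, LinearMap.mulLeft_apply, I3, Prod.fst_add,
      Prod.snd_add, Prod.fst_zero, Prod.snd_zero]
    constructor
    · rintro ⟨h, h'⟩; exact ⟨by linear_combination h, by linear_combination h'⟩
    · rintro ⟨h, h'⟩; exact ⟨by linear_combination h, by linear_combination h'⟩
  · refine transfer φ ψ (fun x => I3 K x (φ.symm y))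
      (((LinearMap.fst _ K K ∘ₗ LinearMap.snd _ K (K × K)) -
          (LinearMap.mulLeft _ (φ.symm y).1) ∘ₗ LinearMap.fst _ K (K × K)).prod
        ((LinearMap.snd _ K K ∘ₗ LinearMap.snd _ K (K × K)) -
          (LinearMap.mulLeft _ (φ.symm y).2.1) ∘ₗ LinearMap.fst _ K (K × K)))
      (φ.symm y).2 fun x => ?_
    rw [Prod.ext_iff]
    simp only [LinearMap.prod_apply, Function.prod, LinearMap.sub_apply, LinearMap.comp_apply,
      LinearMap.snd_apply, LinearMap.fst_apply, LinearMap.mulLeft_apply, I3, Prod.fst_add,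
      Prod.snd_add, Prod.fst_zero, Prod.snd_zero]
    constructor
    · rintro ⟨h, h'⟩; exact ⟨by linear_combination h, by linear_combination h'⟩
    · rintro ⟨h, h'⟩; exact ⟨by linear_combination h, by linear_combination h'⟩
  · rw [← GaloisField.card p e (by omega)]
    exact Gco_deg φ _ _ (I3_card K) (I3_card' K) x

end Pool.Agent.X49.Alg
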