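import Pool.Agent.X49.Alg.Cert
import Pool.Agent.X49.Alg.Poly

set_option autoImplicit false

/-!
# Even cycles and certificates of low degree
-/

namespace Pool.Agent.X49.Alg

open Finset MvPolynomial SimpleGraph

section cycle

variable (k : ℕ)

theorem cyc_side (u v : Fin (2 * k)) (h : (cycleGraph (2 * k)).Adj u v) :
    decide (u.val % 2 = 0) ≠ decide (v.val % 2 = 0) :=
  (cycleGraph.bicoloring_of_even (2 * k) ⟨k, by ring⟩).valid h

theorem cyc_deg (u : Fin (2 * k)) : Nat.card {v // (cycleGraph (2 * k)).Adj u v} ≤ 2 := by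
  classical
  rcases Nat.eq_zero_or_pos k with rfl | hk
  · exact u.elim0
  · obtain ⟨n, hn⟩ : ∃ n, 2 * k = n + 2 := ⟨2 * k - 2, by omega⟩
    revert u
    rw [hn]
    intro u
    have h : Nat.card {v // (cycleGraph (n + 2)).Adj u v} =
        (univ.filter fun v => (cycleGraph (n + 2)).Adj u v).card := by
      rw [Nat.card_eq_fintype_card, Fintype.card_subtype]
    rw [h]
    refine le_trans (Finset.card_le_card (t := {u - 1, u + 1}) fun v hv => ?_) Finset.card_le_two
    rw [mem_filter, cycleGraph_adj] at hv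
    rw [mem_insert, mem_singleton]
    rcases hv.2 with h1 | h1
    · left; rw [← h1]; simp
    · right; rw [← h1]; simp

theorem cyc_odd : Fintype.card {w : Fin (2 * k) // decide (w.val % 2 = 0) = false} ≤ k := by
  have h : Fintype.card {w : Fin (2 * k) // decide (w.val % 2 = 0) = false} ≤
      Fintype.card (Fin k) := by
    refine Fintype.card_le_of_injective
      (fun w => (⟨w.1.val / 2, by have := w.1.isLt; omega⟩ : Fin k)) ?_
    rintro ⟨w, hw⟩ ⟨w', hw'⟩ h
    have h1 : w.val / 2 = w'.val / 2 := congrArg Fin.val h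
    have h2 : w.val % 2 ≠ 0 := by simpa using hw
    have h3 : w'.val % 2 ≠ 0 := by simpa using hw'
    have h4 : w = w' := Fin.ext (by omega)
    subst h4
    rfl
  rwa [Fintype.card_fin] at h

end cycle

variable {F : Type} [Field F] [Fintype F] {c m s D : ℕ}
  {G : SimpleGraph (Fin c × (Fin m → F))}

/-- even cycles -/
theorem cert_cycle {k : ℕ} (hcard : 2 * k ≤ Fintype.card F ^ (m - 2 * (s * D)))
    (hfree : (cycleGraph (2 * k)).Free G) :
    (∀ y, Nat.card {x // Cert s D G x y} < k) ∧
    Nat.card {p : (Fin c × (Fin m → F)) × (Fin c × (Fin m → F)) // Cert s D G p.1 p.2} ≤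
      (k - 1) * Nat.card (Fin c × (Fin m → F)) := by
  have h4 : Fintype.card (Fin (2 * k)) ≤ Fintype.card F ^ (m - 2 * (s * D)) := by
    rw [Fintype.card_fin]
    exact hcard
  exact ⟨cert_deg _ (fun u => decide (u.val % 2 = 0)) (fun u v h => cyc_side k u v h)
    (fun u _ => cyc_deg k u) (cyc_odd k) h4 hfree,
    cert_card _ (fun u => decide (u.val % 2 = 0)) (fun u v h => cyc_side k u v h)
    (fun u _ => cyc_deg k u) (cyc_odd k) h4 hfree⟩

/-- all even cycles in graphs with low neighbourhoods -/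
theorem loc_cycle {k : ℕ} (hG : LocLow s D G) (hne : ∃ x y, G.Adj x y)
    (hcard : 2 * k < Fintype.card F ^ (m - 2 * (s * D))) : (cycleGraph (2 * k)).IsContained G := by
  refine embed _ (fun u => decide (u.val % 2 = 0)) (fun u v h => cyc_side k u v h)
    (r := 2) (by norm_num) (fun u _ => cyc_deg k u) hG hne ?_
  rw [Fintype.card_fin]
  exact hcard

/-! ### a star of lines -/

section star
variable {K : Type} [Field K]

/-- the line with the slope `x.1` contains `y` -/
def IL (x y : K × K) : Prop := x.2 = 0 ∧ y.2 = x.1 * y.1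

theorem IL_two {x x' y : K × K} (h : IL x y) (h' : IL x' y) (hne : x ≠ x') : y = 0 := by
  have h1 : x.1 ≠ x'.1 := fun e => hne (Prod.ext e (h.1.trans h'.1.symm))
  have h2 : (x.1 - x'.1) * y.1 = 0 := by linear_combination h'.2 - h.2
  have h3 : y.1 = 0 := (mul_eq_zero.1 h2).resolve_left (sub_ne_zero.2 h1)
  refine Prod.ext h3 ?_
  rw [h.2, h3, mul_zero]; rfl

theorem IL_acyclic {X : Type} (Inc : X → X → Prop) (o : X)
    (h2 : ∀ x x' y, Inc x y → Inc x' y → x ≠ x' → y = o) {v : Fin 2 × X}
    (w : (BG Inc).Walk v v) : ¬ w.IsCycle := by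
  intro hw
  have h3 := hw.three_le_length
  obtain ⟨n, hn⟩ : ∃ n, w.length = n + 3 := ⟨w.length - 3, by omega⟩
  have hc : (cycleGraph (n + 3)).IsContained (BG Inc) :=
    (cycleGraph_isContained_iff (by omega)).2 ⟨v, w, hw, hn⟩
  obtain ⟨⟨f, hf⟩, hinj⟩ := hc
  have hinj' : Function.Injective f := hinj
  have h20 : (1 : Fin (n + 3)) + 1 ≠ 0 := by
    intro h
    have h' := congrArg Fin.val h
    have e2 : (1 : Fin (n + 3)) + 1 = 2 := by
      refine Fin.ext ?_
      rw [Fin.val_add, Fin.val_two, Fin.val_one]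
      exact Nat.mod_eq_of_lt (by omega)
    rw [e2, Fin.val_two, Fin.val_zero] at h'
    omega
  have hadj : ∀ i : Fin (n + 3), (BG Inc).Adj (f i) (f (i + 1)) := fun i =>
    hf (cycleGraph_adj.2 (Or.inr (by simp)))
  have key : ∀ i : Fin (n + 3), (f i).1 = 1 → f i = (1, o) := by
    intro i hi
    have ha := hadj i
    have hb := hadj (i - 1)
    rw [sub_add_cancel] at hb
    have hne : f (i + 1) ≠ f (i - 1) := by
      intro e
      have h5 := hinj' e
      apply h20
      have h6 : (i + 1) - (i - 1) = 0 := by rw [h5, sub_self]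
      rw [← h6]
      abel
    rcases ha with ⟨h, _, _⟩ | ⟨_, ha1, ha2⟩
    · rw [hi] at h; exact absurd h (by decide)
    · rcases hb with ⟨hb1, _, hb2⟩ | ⟨_, h, _⟩
      · refine Prod.ext hi (h2 _ _ _ ha2 hb2 fun e => hne (Prod.ext (ha1.trans hb1.symm) e))
      · rw [hi] at h; exact absurd h (by decide)
  have key2 : ∀ i : Fin (n + 3), (f i).1 = 1 → False := by
    intro i hi
    have ha := hadj i
    have hb := hadj (i + 1)
    rcases ha with ⟨h, _, _⟩ | ⟨_, ha1, ha2⟩
    · rw [hi] at h; exact absurd h (by decide)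
    · rcases hb with ⟨_, hb1, _⟩ | ⟨h, _, _⟩
      · have h5 := (key i hi).trans (key _ hb1).symm
        have h6 := hinj' h5
        apply h20
        have h7 : (i + 1 + 1) - i = 0 := by rw [← h6, sub_self]
        rw [← h7]
        abel
      · rw [ha1] at h; exact absurd h (by decide)
  rcases hadj 0 with ⟨_, h, _⟩ | ⟨h, _, _⟩
  · exact key2 _ h
  · exact key2 _ h

end star

/-- **A star of lines**: a graph without cycles and a vertex with `p ^ e` certificates of type
`(e, 1)`. -/
theorem exampleL (p : ℕ) [Fact p.Prime] (e : ℕ) (he : 1 ≤ e) :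
    ∃ G : SimpleGraph (Fin 2 × (Fin (2 * e) → ZMod p)),
      (∀ (v : Fin 2 × (Fin (2 * e) → ZMod p)) (w : G.Walk v v), ¬ w.IsCycle) ∧
      ∃ y, p ^ e ≤ Nat.card {x // Cert e 1 G x y} := by
  classical
  let K := GaloisField p e
  have hf : Module.finrank (ZMod p) K = e := GaloisField.finrank p (by omega)
  let ψ : K ≃ₗ[ZMod p] (Fin e → ZMod p) :=
    LinearEquiv.ofFinrankEq _ _ (by rw [hf, Module.finrank_fin_fun])
  let φ : (K × K) ≃ₗ[ZMod p] (Fin (2 * e) → ZMod p) :=
    LinearEquiv.ofFinrankEq _ _ (by rw [Module.finrank_prod, hf, Module.finrank_fin_fun]; ring)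
  refine ⟨Gco φ IL, fun v w => IL_acyclic _ (φ 0) (fun x x' y h h' hne => ?_) w, (1, φ 0), ?_⟩
  · have h1 := IL_two h h' (fun e => hne (φ.symm.injective e))
    rw [← h1, LinearEquiv.apply_symm_apply]
  · have hK : Nat.card K = p ^ e := GaloisField.card p e (by omega)
    rw [← hK]
    have hcert : ∀ a : K, Cert e 1 (Gco φ (IL (K := K))) ((0 : Fin 2), φ (a, 0)) ((1 : Fin 2), φ 0) := by
      intro a
      have hadj : ∀ z : Fin (2 * e) → ZMod p, (φ.symm z).2 = a * (φ.symm z).1 →
          (Gco φ (IL (K := K))).Adj ((0 : Fin 2), φ (a, 0)) ((1 : Fin 2), z) := by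
        intro z hz
        refine Or.inl ⟨rfl, rfl, ?_⟩
        change IL (φ.symm (φ (a, 0))) (φ.symm z)
        rw [LinearEquiv.symm_apply_apply]
        exact ⟨rfl, hz⟩
      obtain ⟨l, t, hl⟩ := transfer φ ψ (fun z : K × K => z.2 = a * z.1)
        (LinearMap.snd (ZMod p) K K - (LinearMap.mulLeft (ZMod p) a) ∘ₗ LinearMap.fst (ZMod p) K K)
        0 (fun z => by
        simp only [LinearMap.sub_apply, LinearMap.comp_apply, LinearMap.snd_apply,
          LinearMap.fst_apply, LinearMap.mulLeft_apply]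
        constructor
        · intro h; rw [h]; ring
        · intro h; linear_combination h)
      refine ⟨hadj _ (by rw [LinearEquiv.symm_apply_apply]; simp), _, lowSet_affine l t, ?_, ?_⟩
      · rw [Set.mem_ofPred_eq, ← hl, LinearEquiv.symm_apply_apply]
        simp
      · intro z hz _
        rw [Set.mem_ofPred_eq, ← hl] at hz
        exact hadj z hz
    refine Nat.card_le_card_of_injective
      (fun a : K => (⟨((0 : Fin 2), φ (a, 0)), hcert a⟩ :
        {x // Cert e 1 (Gco φ (IL (K := K))) x ((1 : Fin 2), φ 0)})) ?_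
    intro a a' h
    have h1 := congrArg Subtype.val h
    have h2 : (a, (0 : K)) = (a', 0) := φ.injective (congrArg (fun z => z.2) h1)
    exact congrArg Prod.fst h2

end Pool.Agent.X49.Alg
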