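import Pool.Agent.X49.Alg.Loc

set_option autoImplicit false

/-!
# Bipartite graphs with bounded degrees on one side in graphs of low degree
-/

namespace Pool.Agent.X49.Alg

open Finset MvPolynomial

variable {F : Type} [Field F] [Fintype F] {c m s D : ℕ}
  {G : SimpleGraph (Fin c × (Fin m → F))}

/-- distinct representatives outside a set -/
theorem sdr {ι α : Type} [Fintype ι] [DecidableEq ι] [DecidableEq α] (t : ι → Finset α)
    (Z : Finset α) (h : ∀ u, Fintype.card ι + Z.card ≤ (t u).card) :
    ∃ f : ι → α, Function.Injective f ∧ ∀ u, f u ∈ t u ∧ f u ∉ Z := by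
  have h1 : ∀ S : Finset ι, S.card ≤ (S.biUnion fun u => t u \ Z).card := by
    intro S
    rcases S.eq_empty_or_nonempty with rfl | ⟨u, hu⟩
    · simp
    · refine le_trans (Finset.card_le_univ S) ?_
      refine le_trans ?_ (Finset.card_le_card (Finset.subset_biUnion_of_mem (fun u => t u \ Z) hu))
      have := Finset.le_card_sdiff Z (t u)
      have := h u
      omega
  obtain ⟨f, hf, hf'⟩ := (Finset.all_card_le_biUnion_card_iff_exists_injective _).1 h1
  exact ⟨f, hf, fun u => Finset.mem_sdiff.1 (hf' u)⟩

open Classical in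
theorem embed {W : Type} [Fintype W] (H : SimpleGraph W) (side : W → Bool)
    (hside : ∀ u v, H.Adj u v → side u ≠ side v) {r : ℕ} (hr : 1 ≤ r)
    (hdeg : ∀ u, side u = true → Nat.card {v // H.Adj u v} ≤ r)
    (hG : LocLow s D G) (hne : ∃ x y, G.Adj x y)
    (hcard : Fintype.card W < Fintype.card F ^ (m - r * (s * D))) : H.IsContained G := by
  have hq : 1 ≤ Fintype.card F := Fintype.card_pos
  obtain ⟨⟨i0, a0⟩, ⟨j0, b0⟩, hxy⟩ := hne
  have hsplit : Fintype.card {w : W // side w = true} + Fintype.card {w : W // side w = false} =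
      Fintype.card W := by
    have e1 : Fintype.card {w : W // side w = false} = Fintype.card {w : W // ¬ side w = true} :=
      Fintype.card_congr (Equiv.subtypeEquivRight fun w => by simp)
    rw [e1, Fintype.card_subtype_compl]
    have := Fintype.card_subtype_le fun w : W => side w = true
    omega
  -- the vertices of the second side
  obtain ⟨A, hA, hA'⟩ := hG (i0, a0) j0
  have hb0 : b0 ∈ A := (hA' b0 (fun e => G.ne_of_adj hxy e.symm)).1 hxy
  have h1 := one hA hb0
  rw [Nat.card_eq_fintype_card, Fintype.card_subtype] at h1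
  have h2 : Fintype.card F ^ (m - r * (s * D)) ≤ Fintype.card F ^ (m - s * D) := by
    refine Nat.pow_le_pow_right hq ?_
    have := Nat.mul_le_mul_right (s * D) hr
    omega
  have h3 := Finset.pred_card_le_card_erase (s := univ.filter fun y => y ∈ A) (a := a0)
  obtain ⟨gY⟩ : Nonempty ({w : W // side w = false} ↪ ((univ.filter fun y => y ∈ A).erase a0)) := by
    refine Function.Embedding.nonempty_of_card_le ?_
    rw [Fintype.card_coe]
    omega
  let φY : {w : W // side w = false} → Fin c × (Fin m → F) := fun w => (j0, (gY w).1)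
  have hφY : ∀ w, G.Adj (i0, a0) (φY w) := by
    intro w
    have hw := (gY w).2
    rw [mem_erase, mem_filter] at hw
    refine (hA' _ ?_).2 hw.2.2
    intro e
    exact hw.1 (congrArg Prod.snd e)
  have hφYinj : Function.Injective φY := by
    intro w w' e
    exact gY.injective (Subtype.ext (congrArg Prod.snd e))
  -- the sets for the vertices of the first side
  choose B hB hB' using fun w : {w : W // side w = false} => hG (φY w) i0
  have ha0 : ∀ w, a0 ∈ B w := fun w => (hB' w a0 (fun e => G.ne_of_adj (hφY w) e)).1 (hφY w).symm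
  let t : {w : W // side w = true} → Finset (Fin c × (Fin m → F)) := fun u =>
    (univ.filter fun a : Fin m → F => ∀ w : {w : W // side w = false}, H.Adj u.1 w.1 →
      a ∈ B w).image fun a => (i0, a)
  have ht : ∀ u, Fintype.card F ^ (m - r * (s * D)) ≤ (t u).card := by
    intro u
    rw [card_image_of_injective _ (fun a a' e => congrArg Prod.snd e)]
    have hnb : ∀ v : {v // H.Adj u.1 v}, side v.1 = false := by
      intro v
      have h := hside _ _ v.2
      rw [u.2] at h
      simpa using h.symm
    have h4 := inter (ι := {v // H.Adj u.1 v}) (fun v => B ⟨v.1, hnb v⟩) (fun v => hB _) a0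
      (fun v => ha0 _)
    have h5 : Fintype.card {v // H.Adj u.1 v} ≤ r := by
      rw [← Nat.card_eq_fintype_card]
      exact hdeg u.1 u.2
    refine le_trans (Nat.pow_le_pow_right hq ?_) (h4.trans ?_)
    · have := Nat.mul_le_mul_right (s * D) h5
      omega
    · rw [Nat.card_eq_fintype_card, Fintype.card_subtype]
      refine card_le_card fun a ha => ?_
      rw [mem_filter] at ha ⊢
      exact ⟨mem_univ _, fun w hw => ha.2 ⟨w.1, hw⟩⟩
  obtain ⟨fX, hfX, hfX'⟩ := sdr t (univ.image φY) (by
    intro u
    rw [card_image_of_injective _ hφYinj, card_univ]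
    have := ht u
    omega)
  -- the copy
  let f : W → Fin c × (Fin m → F) := fun w =>
    if h : side w = true then fX ⟨w, h⟩ else φY ⟨w, by simpa using h⟩
  have hf1 : ∀ w (h : side w = true), f w = fX ⟨w, h⟩ := fun w h => dif_pos h
  have hf2 : ∀ w (h : side w = false), f w = φY ⟨w, h⟩ := fun w h =>
    dif_neg (by rw [h]; decide)
  have hno : ∀ u w, fX u ≠ φY w := by
    intro u w e
    exact (hfX' u).2 (by rw [e]; exact mem_image_of_mem _ (mem_univ _))
  have hadj : ∀ u w, side u = true → side w = false → H.Adj u w → G.Adj (f u) (f w) := by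
    intro u w hu hw huw
    rw [hf1 u hu, hf2 w hw]
    have h6 := (hfX' ⟨u, hu⟩).1
    obtain ⟨a, ha, he⟩ := mem_image.1 h6
    rw [mem_filter] at ha
    have h7 := ha.2 ⟨w, hw⟩ huw
    have h8 : (i0, a) ≠ φY ⟨w, hw⟩ := fun e => hno ⟨u, hu⟩ ⟨w, hw⟩ (by rw [← he, e])
    rw [← he]
    exact ((hB' _ a h8).2 h7).symm
  refine ⟨⟨⟨f, fun {u w} huw => ?_⟩, ?_⟩⟩
  · have h := hside u w huw
    cases hu : side u <;> cases hw : side w
    · rw [hu, hw] at h; exact absurd rfl h
    · exact (hadj w u hw hu huw.symm).symm
    · exact hadj u w hu hw huw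
    · rw [hu, hw] at h; exact absurd rfl h
  · intro u w e
    change f u = f w at e
    cases hu : side u <;> cases hw : side w
    · rw [hf2 u hu, hf2 w hw] at e
      exact congrArg Subtype.val (hφYinj e)
    · rw [hf2 u hu, hf1 w hw] at e
      exact absurd e.symm (hno _ _)
    · rw [hf1 u hu, hf2 w hw] at e
      exact absurd e (hno _ _)
    · rw [hf1 u hu, hf1 w hw] at e
      exact congrArg Subtype.val (hfX e)

/-- complete bipartite graphs -/
theorem kst {r t : ℕ} (hr : 1 ≤ r) (hG : LocLow s D G) (hne : ∃ x y, G.Adj x y)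
    (hcard : r + t < Fintype.card F ^ (m - r * (s * D))) :
    (completeBipartiteGraph (Fin r) (Fin t)).IsContained G := by
  refine embed _ (fun v => v.isRight) ?_ hr ?_ hG hne ?_
  · rintro (u | u) (v | v) h <;> simp [completeBipartiteGraph] at h ⊢
  · rintro (u | u) hu
    · simp at hu
    · have e : Nat.card {v : Fin r ⊕ Fin t // (completeBipartiteGraph (Fin r) (Fin t)).Adj
          (Sum.inr u) v} = r := by
        refine Eq.trans ?_ (Nat.card_fin r)
        refine Nat.card_congr ⟨fun v => ?_, fun i => ⟨Sum.inl i, by simp [completeBipartiteGraph]⟩,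
          ?_, ?_⟩
        · obtain ⟨v, hv⟩ := v
          rcases v with v | v
          · exact v
          · exact absurd hv (by simp [completeBipartiteGraph])
        · rintro ⟨v | v, hv⟩
          · rfl
          · exact absurd hv (by simp [completeBipartiteGraph])
        · intro i
          rfl
      exact e.le
  · rw [Fintype.card_sum, Fintype.card_fin, Fintype.card_fin]
    exact hcard

end Pool.Agent.X49.Alg
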