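import Pool.Agent.TH17.LD.Warning

set_option autoImplicit false

/-!
# Graphs all of whose neighbourhoods are given by polynomials of low degree
-/

namespace Pool.Agent.X49.Alg

open Finset MvPolynomial Pool.Agent.TH17.LD

/-- Membership in `A` is a function of the values of `s` polynomials of degree at most `D`. -/
def LowSet {F : Type} [Field F] {m : ℕ} (s D : ℕ) (A : Set (Fin m → F)) : Prop :=
  ∃ (f : Fin s → MvPolynomial (Fin m) F) (S : Set (Fin s → F)),
    (∀ j, (f j).totalDegree ≤ D) ∧ ∀ y, y ∈ A ↔ (fun j => eval y (f j)) ∈ S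

/-- `G` is a graph on `c` copies of `F ^ m`, and the part in every copy of the neighbourhood of
every vertex is given by `s` polynomials of degree at most `D` (up to the vertex itself). -/
def LocLow {F : Type} [Field F] {c m : ℕ} (s D : ℕ) (G : SimpleGraph (Fin c × (Fin m → F))) :
    Prop :=
  ∀ (x : Fin c × (Fin m → F)) (i : Fin c), ∃ A : Set (Fin m → F), LowSet s D A ∧
    ∀ y, (i, y) ≠ x → (G.Adj x (i, y) ↔ y ∈ A)

variable {F : Type} [Field F] [Fintype F] {m : ℕ}

/-- The intersection of `k` sets of type `(s, D)`, if not empty, has at least `q ^ (m - k s D)`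
elements. -/
theorem inter {ι : Type} [Fintype ι] {s D : ℕ} (A : ι → Set (Fin m → F))
    (hA : ∀ i, LowSet s D (A i)) (y₀ : Fin m → F) (h0 : ∀ i, y₀ ∈ A i) :
    Fintype.card F ^ (m - Fintype.card ι * (s * D)) ≤ Nat.card {y // ∀ i, y ∈ A i} := by
  classical
  choose f S hf hS using hA
  have h := warning2 (F := F) (σ := Fin m) (J := ι × Fin s)
    (fun p y => eval y (f p.1 p.2) - eval y₀ (f p.1 p.2)) (fun _ => D)
    (fun p => Submodule.sub_mem _ (P_mono (hf p.1 p.2) (eval_mem (f p.1 p.2))) (const_mem _ _))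
    y₀ (fun p => sub_self _)
  simp only [Finset.sum_const, Finset.card_univ, Fintype.card_prod, Fintype.card_fin,
    smul_eq_mul] at h
  rw [mul_assoc] at h
  refine h.trans ?_
  have hfin : Finite {y : Fin m → F // ∀ i, y ∈ A i} := inferInstance
  refine Nat.card_le_card_of_injective
    (fun y : {y : Fin m → F // ∀ p : ι × Fin s,
      eval y (f p.1 p.2) - eval y₀ (f p.1 p.2) = 0} =>
      (⟨y.1, fun i => ?_⟩ : {y : Fin m → F // ∀ i, y ∈ A i})) ?_
  · have h1 : (fun j => eval y.1 (f i j)) = fun j => eval y₀ (f i j) := by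
      funext j
      exact sub_eq_zero.1 (y.2 (i, j))
    rw [hS i, h1]
    exact (hS i y₀).1 (h0 i)
  · intro y z hyz
    exact Subtype.ext (congrArg (fun t : {y : Fin m → F // ∀ i, y ∈ A i} => t.1) hyz)

/-- one set -/
theorem one {s D : ℕ} {A : Set (Fin m → F)} (hA : LowSet s D A) {y₀ : Fin m → F} (h0 : y₀ ∈ A) :
    Fintype.card F ^ (m - s * D) ≤ Nat.card {y // y ∈ A} := by
  have h := inter (ι := Unit) (fun _ => A) (fun _ => hA) y₀ (fun _ => h0)
  rw [Fintype.card_unit, one_mul] at h
  refine h.trans (le_of_eq ?_)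
  exact Nat.card_congr (Equiv.subtypeEquivRight fun y => ⟨fun h => h (), fun h _ => h⟩)

variable {c : ℕ}

open Classical in
/-- **Degrees.** A vertex with a neighbour has at least `q ^ (m - s D) - 1` neighbours. -/
theorem deg {s D : ℕ} {G : SimpleGraph (Fin c × (Fin m → F))} (hG : LocLow s D G)
    {x y : Fin c × (Fin m → F)} (h : G.Adj x y) :
    Fintype.card F ^ (m - s * D) - 1 ≤ (Finset.univ.filter fun z => G.Adj x z).card := by
  obtain ⟨i, y⟩ := y
  obtain ⟨A, hA, hA'⟩ := hG x i
  have hy : y ∈ A := (hA' y (fun e => G.ne_of_adj h e.symm)).1 h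
  have h1 := one hA hy
  rw [Nat.card_eq_fintype_card, Fintype.card_subtype] at h1
  have h2 : ((Finset.univ.filter fun y => y ∈ A).erase x.2).card ≤
      (Finset.univ.filter fun z => G.Adj x z).card := by
    refine Finset.card_le_card_of_injOn (fun y => (i, y)) ?_ ?_
    · intro z hz
      rw [Finset.mem_coe, Finset.mem_erase, Finset.mem_filter] at hz
      rw [Finset.mem_coe, Finset.mem_filter]
      refine ⟨Finset.mem_univ _, (hA' z ?_).2 hz.2.2⟩
      intro e
      exact hz.1 (by rw [← e])
    · intro z _ z' _ e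
      exact (Prod.mk.injEq _ _ _ _ ▸ e : i = i ∧ z = z').2
  have h3 := Finset.pred_card_le_card_erase (s := Finset.univ.filter fun y => y ∈ A) (a := x.2)
  omega

end Pool.Agent.X49.Alg
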