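import Pool.Agent.X49.Alg.Cert
import Pool.Agent.X49.Alg.Poly

set_option autoImplicit false

/-!
# Points and hyperplanes of the moment curve
-/

namespace Pool.Agent.X49.Alg

open Finset MvPolynomial

variable {K : Type} [Field K] {ρ : ℕ}

/-- the hyperplane with the normal `(1, a, a², …)`, `a = x 0`, and the value `x 1` contains `y` -/
def IM (x y : Fin (ρ + 2) → K) : Prop :=
  (∀ i : Fin ρ, x i.succ.succ = 0) ∧ ∑ j : Fin (ρ + 2), x 0 ^ (j : ℕ) * y j = x 1

theorem IM_key (x : Fin (ρ + 2) → Fin (ρ + 2) → K) (hx : Function.Injective x)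
    {y y' : Fin (ρ + 2) → K} (h : ∀ i, IM (x i) y) (h' : ∀ i, IM (x i) y') : y = y' := by
  have ha : Function.Injective fun i => x i 0 := by
    intro i j hij
    refine hx ?_
    have h0 : x i 0 = x j 0 := hij
    have h1 : x i 1 = x j 1 := by rw [← (h i).2, ← (h j).2, h0]
    funext k
    refine Fin.cases h0 (fun k => ?_) k
    refine Fin.cases ?_ (fun k => ?_) k
    · exact h1
    · rw [(h i).1 k, (h j).1 k]
  have h2 : (Matrix.vandermonde fun i => x i 0).mulVec (y - y') = 0 := by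
    funext i
    rw [Matrix.mulVec, dotProduct, Pi.zero_apply]
    have : ∑ j, (Matrix.vandermonde fun i => x i 0) i j * (y - y') j =
        (∑ j : Fin (ρ + 2), x i 0 ^ (j : ℕ) * y j) - ∑ j : Fin (ρ + 2), x i 0 ^ (j : ℕ) * y' j := by
      rw [← Finset.sum_sub_distrib]
      refine Finset.sum_congr rfl fun j _ => ?_
      rw [Matrix.vandermonde_apply, Pi.sub_apply, mul_sub]
    rw [this, (h i).2, (h' i).2, sub_self]
  exact sub_eq_zero.1 (Matrix.eq_zero_of_mulVec_eq_zero (Matrix.det_vandermonde_ne_zero_iff.2 ha) h2)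

theorem IM_card [Finite K] : Nat.card K ^ (ρ + 3) ≤
    Nat.card {p : (Fin (ρ + 2) → K) × (Fin (ρ + 2) → K) // IM p.1 p.2} := by
  classical
  have e : Nat.card (K × (Fin (ρ + 2) → K)) = Nat.card K ^ (ρ + 3) := by
    rw [Nat.card_prod, Nat.card_fun, Nat.card_fin]
    ring
  rw [← e]
  let f : K → (Fin (ρ + 2) → K) → (Fin (ρ + 2) → K) := fun a y =>
    Fin.cons a (Fin.cons (∑ j : Fin (ρ + 2), a ^ (j : ℕ) * y j) fun _ => 0)
  have hf : ∀ a y, IM (f a y) y := fun a y => ⟨fun i => rfl, rfl⟩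
  refine Nat.card_le_card_of_injective
    (fun z : K × (Fin (ρ + 2) → K) =>
      (⟨(f z.1 z.2, z.2), hf z.1 z.2⟩ :
        {p : (Fin (ρ + 2) → K) × (Fin (ρ + 2) → K) // IM p.1 p.2})) ?_
  rintro ⟨a, y⟩ ⟨a', y'⟩ h
  have h1 := congrArg Subtype.val h
  have h2 : f a y = f a' y' := congrArg Prod.fst h1
  have h3 : y = y' := congrArg Prod.snd h1
  have h4 : a = a' := congrFun h2 0
  rw [h3, h4]

/-- **Points and hyperplanes of the moment curve**: graphs without `K_{r,r}`, `r = ρ + 2`, on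
`2 p ^ (r e)` vertices with `p ^ ((r + 1) e)` edges with certificates of type `(e, 1)`. -/
theorem exampleM (p : ℕ) [Fact p.Prime] (e ρ : ℕ) (he : 1 ≤ e) :
    ∃ G : SimpleGraph (Fin 2 × (Fin ((ρ + 2) * e) → ZMod p)),
      (completeBipartiteGraph (Fin (ρ + 2)) (Fin (ρ + 2))).Free G ∧
      p ^ ((ρ + 3) * e) ≤ Nat.card {z : (Fin 2 × (Fin ((ρ + 2) * e) → ZMod p)) ×
        (Fin 2 × (Fin ((ρ + 2) * e) → ZMod p)) // z.1.1 = 0 ∧ Cert e 1 G z.1 z.2} := by
  classical
  let K := GaloisField p e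
  have hf : Module.finrank (ZMod p) K = e := GaloisField.finrank p (by omega)
  let ψ : K ≃ₗ[ZMod p] (Fin e → ZMod p) :=
    LinearEquiv.ofFinrankEq _ _ (by rw [hf, Module.finrank_fin_fun])
  let φ : (Fin (ρ + 2) → K) ≃ₗ[ZMod p] (Fin ((ρ + 2) * e) → ZMod p) :=
    LinearEquiv.ofFinrankEq _ _ (by
      rw [Module.finrank_pi_fintype, Module.finrank_fin_fun, Finset.sum_const, hf,
        Finset.card_univ, Fintype.card_fin, smul_eq_mul])
  refine ⟨Gco φ IM, ?_, ?_⟩
  · rintro ⟨⟨f, hf'⟩, hinj⟩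
    have hinj' : Function.Injective f := hinj
    have hadj : ∀ i j, (Gco φ (IM (K := K) (ρ := ρ))).Adj (f (Sum.inl i)) (f (Sum.inr j)) := by
      intro i j
      exact hf' (by simp [completeBipartiteGraph])
    have h01 : (0 : Fin (ρ + 2)) ≠ 1 := by
      intro h
      have := congrArg Fin.val h
      simp at this
    have hcase : (f (Sum.inl 0)).1 = 0 ∨ (f (Sum.inl 0)).1 = 1 := by omega
    rcases hcase with h0 | h0
    · have hv : ∀ j, (f (Sum.inr j)).1 = 1 := by
        intro j
        rcases hadj 0 j with ⟨_, h, _⟩ | ⟨h, _, _⟩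
        · exact h
        · rw [h0] at h; exact absurd h (by decide)
      have hu : ∀ i, (f (Sum.inl i)).1 = 0 := by
        intro i
        rcases hadj i 0 with ⟨h, _, _⟩ | ⟨_, h, _⟩
        · exact h
        · rw [hv 0] at h; exact absurd h (by decide)
      have hI : ∀ i j, IM (φ.symm (f (Sum.inl i)).2) (φ.symm (f (Sum.inr j)).2) := by
        intro i j
        rcases hadj i j with ⟨_, _, h⟩ | ⟨h, _, _⟩
        · exact h
        · rw [hu i] at h; exact absurd h (by decide)
      have h1 := IM_key (fun i => φ.symm (f (Sum.inl i)).2) (fun i i' hii => by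
        have h2 := φ.symm.injective hii
        have h3 : f (Sum.inl i) = f (Sum.inl i') := Prod.ext ((hu i).trans (hu i').symm) h2
        exact Sum.inl_injective (hinj' h3)) (fun i => hI i 0) (fun i => hI i 1)
      have h2 := φ.symm.injective h1
      have h3 : f (Sum.inr 0) = f (Sum.inr 1) := Prod.ext ((hv 0).trans (hv 1).symm) h2
      exact h01 (Sum.inr_injective (hinj' h3))
    · have hv : ∀ j, (f (Sum.inr j)).1 = 0 := by
        intro j
        rcases hadj 0 j with ⟨h, _, _⟩ | ⟨_, h, _⟩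
        · rw [h0] at h; exact absurd h (by decide)
        · exact h
      have hu : ∀ i, (f (Sum.inl i)).1 = 1 := by
        intro i
        rcases hadj i 0 with ⟨_, h, _⟩ | ⟨h, _, _⟩
        · rw [hv 0] at h; exact absurd h (by decide)
        · exact h
      have hI : ∀ i j, IM (φ.symm (f (Sum.inr j)).2) (φ.symm (f (Sum.inl i)).2) := by
        intro i j
        rcases hadj i j with ⟨h, _, _⟩ | ⟨_, _, h⟩
        · rw [hu i] at h; exact absurd h (by decide)
        · exact h
      have h1 := IM_key (fun i => φ.symm (f (Sum.inr i)).2) (fun i i' hii => by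
        have h2 := φ.symm.injective hii
        have h3 : f (Sum.inr i) = f (Sum.inr i') := Prod.ext ((hv i).trans (hv i').symm) h2
        exact Sum.inr_injective (hinj' h3)) (fun j => hI 0 j) (fun j => hI 1 j)
      have h2 := φ.symm.injective h1
      have h3 : f (Sum.inl 0) = f (Sum.inl 1) := Prod.ext ((hu 0).trans (hu 1).symm) h2
      exact h01 (Sum.inl_injective (hinj' h3))
  · have hK : Nat.card K = p ^ e := GaloisField.card p e (by omega)
    have h1 : p ^ ((ρ + 3) * e) = Nat.card K ^ (ρ + 3) := by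
      rw [hK, ← pow_mul]; ring_nf
    have hfin : Finite K := Nat.finite_of_card_ne_zero (by
      rw [hK]; exact pow_ne_zero _ (Fact.out : p.Prime).pos.ne')
    rw [h1]
    refine (IM_card (K := K) (ρ := ρ)).trans ?_
    have hcert : ∀ x y : Fin (ρ + 2) → K, IM x y →
        Cert e 1 (Gco φ IM) ((0 : Fin 2), φ x) ((1 : Fin 2), φ y) := by
      intro x y hxy
      have hadj : ∀ z : Fin ((ρ + 2) * e) → ZMod p, IM x (φ.symm z) →
          (Gco φ (IM (K := K) (ρ := ρ))).Adj ((0 : Fin 2), φ x) ((1 : Fin 2), z) := by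
        intro z hz
        refine Or.inl ⟨rfl, rfl, ?_⟩
        change IM (φ.symm (φ x)) (φ.symm z)
        rw [LinearEquiv.symm_apply_apply]
        exact hz
      obtain ⟨l, t, hl⟩ := transfer φ ψ (fun z => ∑ j : Fin (ρ + 2), x 0 ^ (j : ℕ) * z j = x 1)
        (∑ j : Fin (ρ + 2), (LinearMap.mulLeft (ZMod p) (x 0 ^ (j : ℕ))) ∘ₗ
          (LinearMap.proj j : (Fin (ρ + 2) → K) →ₗ[ZMod p] K)) (- x 1) (fun z => by
        simp only [LinearMap.sum_apply, LinearMap.comp_apply, LinearMap.mulLeft_apply,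
          LinearMap.proj_apply]
        constructor
        · intro h; rw [h]; ring
        · intro h; linear_combination h)
      refine ⟨hadj _ (by rw [LinearEquiv.symm_apply_apply]; exact hxy), _, lowSet_affine l t, ?_, ?_⟩
      · rw [Set.mem_ofPred_eq, ← hl, LinearEquiv.symm_apply_apply]
        exact hxy.2
      · intro a ha _
        rw [Set.mem_ofPred_eq, ← hl] at ha
        exact hadj a ⟨hxy.1, ha⟩
    refine Nat.card_le_card_of_injective
      (fun z : {p : (Fin (ρ + 2) → K) × (Fin (ρ + 2) → K) // IM p.1 p.2} =>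
        (⟨((0, φ z.1.1), (1, φ z.1.2)), rfl, hcert _ _ z.2⟩ :
          {z : (Fin 2 × (Fin ((ρ + 2) * e) → ZMod p)) ×
        (Fin 2 × (Fin ((ρ + 2) * e) → ZMod p)) // z.1.1 = 0 ∧ Cert e 1 (Gco φ IM) z.1 z.2})) ?_
    rintro ⟨⟨x, y⟩, h⟩ ⟨⟨x', y'⟩, h'⟩ hh
    have h1 := congrArg Subtype.val hh
    have h2 : x = x' := φ.injective (congrArg (fun z => z.1.2) h1)
    have h3 : y = y' := φ.injective (congrArg (fun z => z.2.2) h1)
    subst h2 h3
    rfl

end Pool.Agent.X49.Alg
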