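import Pool.Agent.X49.Alg.Prog

set_option autoImplicit false

/-!
# Progression-free sets given by few polynomials of degree less than `k`
-/

namespace Pool.Agent.X49.Alg

open Finset Polynomial Pool.Agent.TH17.LD

section general
variable {F : Type} [Field F]

theorem of_mem {σ : Type} [Fintype σ] {D : ℕ} {φ : (σ → F) → F} (h : φ ∈ P F σ D) :
    ∃ f : MvPolynomial σ F, f.totalDegree ≤ D ∧ ∀ x, MvPolynomial.eval x f = φ x := by
  classical
  induction h using Submodule.span_induction with
  | mem g hg =>
    obtain ⟨s, hs, rfl⟩ := hg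
    refine ⟨MvPolynomial.monomial (Finsupp.equivFunOnFinite.symm s) 1, ?_, fun x => ?_⟩
    · refine (MvPolynomial.totalDegree_monomial_le _ _).trans ?_
      rw [Finsupp.sum_fintype _ _ fun _ => rfl]
      exact hs
    · rw [MvPolynomial.eval_monomial, one_mul, Finsupp.prod_fintype _ _ fun _ => pow_zero _]
      rfl
  | zero => exact ⟨0, by simp, fun x => by simp⟩
  | add f g _ _ hf hg =>
    obtain ⟨f', h1, h2⟩ := hf
    obtain ⟨g', h3, h4⟩ := hg
    exact ⟨f' + g', (MvPolynomial.totalDegree_add _ _).trans (max_le h1 h3), fun x => by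
      rw [map_add, h2, h4]; rfl⟩
  | smul c f _ hf =>
    obtain ⟨f', h1, h2⟩ := hf
    exact ⟨c • f', (MvPolynomial.totalDegree_smul_le _ _).trans h1, fun x => by
      rw [MvPolynomial.smul_eval, h2]; rfl⟩

theorem lin_mem {σ : Type} [Fintype σ] (l : (σ → F) →ₗ[F] F) :
    (fun x => l x) ∈ P F σ 1 := by
  classical
  have e : (fun x => l x) = ∑ i, l (Pi.single i 1) • (fun x : σ → F => x i) := by
    funext x
    rw [Finset.sum_apply]
    conv_lhs => rw [LinearMap.pi_apply_eq_sum_univ l x]
    refine Finset.sum_congr rfl fun i _ => ?_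
    have e : (fun j => if i = j then (1 : F) else 0) = Pi.single i 1 := by
      funext k
      rw [Pi.single_apply]
      simp only [eq_comm]
    rw [smul_eq_mul, Pi.smul_apply, smul_eq_mul, mul_comm, e]
  rw [e]
  exact Submodule.sum_mem _ fun i _ => Submodule.smul_mem _ _ (coord_mem i)

theorem comap_mem {σ τ : Type} [Fintype σ] [Fintype τ] {D : ℕ} {φ : (σ → F) → F}
    (h : φ ∈ P F σ D) (E : (τ → F) →ₗ[F] (σ → F)) : (fun x => φ (E x)) ∈ P F τ D := by
  induction h using Submodule.span_induction with
  | mem x hx =>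
    obtain ⟨s, hs, rfl⟩ := hx
    have e : (fun x => mono s (E x)) = ∏ i, (fun x => E x i) ^ s i := by
      funext x
      rw [mono, Finset.prod_apply]
      rfl
    rw [e]
    refine P_mono ?_ (prod_mem univ _ (fun i => s i * 1) fun i _ =>
      pow_mem (lin_mem ((LinearMap.proj i).comp E)) (s i))
    simpa using hs
  | zero => exact Submodule.zero_mem _
  | add y z _ _ hy hz => exact Submodule.add_mem _ hy hz
  | smul c y _ hy => exact Submodule.smul_mem _ c hy

theorem det_mem {j : ℕ} (φ : (Fin j → F) →ₗ[F] Matrix (Fin j) (Fin j) F) :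
    (fun x => (φ x).det) ∈ P F (Fin j) j := by
  have e : (fun x => (φ x).det) =
      ∑ π : Equiv.Perm (Fin j), ((Equiv.Perm.sign π : ℤ) : F) • ∏ i, fun x => φ x (π i) i := by
    funext x
    rw [Matrix.det_apply', Finset.sum_apply]
    refine Finset.sum_congr rfl fun π _ => ?_
    rw [Pi.smul_apply, Finset.prod_apply, smul_eq_mul]
  rw [e]
  refine Submodule.sum_mem _ fun π _ => Submodule.smul_mem _ _ ?_
  refine P_mono ?_ (prod_mem univ _ (fun _ => 1) fun i _ =>
    lin_mem ((LinearMap.proj i).comp ((LinearMap.proj (π i)).comp φ)))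
  simp

end general

variable (K : Type) [Field K] [Fintype K]

theorem norm_form (j : ℕ) (hj : j ≠ 0) : ∃ N ∈ P K (Fin j) j, ∀ x u : Fin j → K,
    ∃ g : K[X], g.natDegree ≤ j ∧ (u ≠ 0 → g.coeff j ≠ 0) ∧
      (u = 0 → g = C (N x)) ∧ ∀ s : K, N (x + s • u) = g.eval s := by
  classical
  obtain ⟨p, hp⟩ := CharP.exists K
  have hpp : Fact p.Prime := ⟨CharP.char_is_prime K p⟩
  have hj' : NeZero j := ⟨hj⟩
  let L := FiniteField.Extension K p j
  let b : Module.Basis (Fin j) K L :=
    Module.finBasisOfFinrankEq K L (FiniteField.finrank_extension K p j)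
  let φ : (Fin j → K) →ₗ[K] Matrix (Fin j) (Fin j) K :=
    (Algebra.leftMulMatrix b).toLinearMap.comp b.equivFun.symm.toLinearMap
  have hdet : ∀ u : Fin j → K, u ≠ 0 → (φ u).det ≠ 0 := by
    intro u hu
    have h1 : (φ u).det = Algebra.norm K (b.equivFun.symm u) := by
      rw [Algebra.norm_eq_matrix_det b]
      rfl
    rw [h1, Algebra.norm_ne_zero_iff]
    exact (LinearEquiv.map_ne_zero_iff b.equivFun.symm).mpr hu
  refine ⟨fun x => (φ x).det, det_mem φ, ?_⟩
  intro x u
  by_cases hu : u = 0
  · refine ⟨C ((φ x).det), ?_, ?_, ?_, ?_⟩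
    · rw [natDegree_C]
      exact Nat.zero_le _
    · intro h
      exact absurd hu h
    · intro _
      rfl
    · intro s
      simp [hu]
  · refine ⟨Matrix.det ((X : K[X]) • (φ u).map C + (φ x).map C), ?_, ?_, ?_, ?_⟩
    · have := natDegree_det_X_add_C_le (φ u) (φ x)
      simpa using this
    · intro _
      have := coeff_det_X_add_C_card (φ u) (φ x)
      rw [Fintype.card_fin] at this
      rw [this]
      exact hdet u hu
    · intro h
      exact absurd h hu
    · intro s
      have h1 : eval s (Matrix.det ((X : K[X]) • (φ u).map C + (φ x).map C)) =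
          Matrix.det ((evalRingHom s).mapMatrix ((X : K[X]) • (φ u).map C + (φ x).map C)) := by
        rw [← RingHom.map_det]
        rfl
      rw [h1]
      simp only [map_add, map_smul]
      congr 1
      ext a c
      simp only [RingHom.mapMatrix_apply, Matrix.add_apply, Matrix.map_apply, Matrix.smul_apply,
        smul_eq_mul, coe_evalRingHom, eval_mul, eval_X, eval_C]
      ring

theorem layer (d : ℕ) : ∃ D : ℕ, 2 * D = d * (d + 1) ∧ ∃ Φ ∈ P K (Fin D) d,
    ∀ x u : Fin D → K, u ≠ 0 →
    ∃ g : K[X], 1 ≤ g.natDegree ∧ g.natDegree ≤ d ∧ ∀ s : K, Φ (x + s • u) = g.eval s := by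
  induction d with
  | zero =>
    refine ⟨0, rfl, fun _ => 0, Submodule.zero_mem _, ?_⟩
    intro x u hu
    exfalso
    apply hu
    funext i
    exact Fin.elim0 i
  | succ d ih =>
    obtain ⟨D, hD, Φ, hΦP, hΦ⟩ := ih
    obtain ⟨N, hNP, hN⟩ := norm_form K (d + 1) (Nat.succ_ne_zero d)
    refine ⟨D + (d + 1), by linarith [hD, mul_comm d (d + 1)],
      (fun x => Φ (fun i => x (Fin.castAdd (d + 1) i))) + fun x => N (fun i => x (Fin.natAdd D i)),
      Submodule.add_mem _ (P_mono (Nat.le_succ d) (comap_mem hΦP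
        (LinearMap.pi fun i => LinearMap.proj (Fin.castAdd (d + 1) i))))
        (comap_mem hNP (LinearMap.pi fun i => LinearMap.proj (Fin.natAdd D i))), ?_⟩
    intro x u hu
    obtain ⟨g, hg1, hg2, hg3, hg4⟩ := hN (fun i => x (Fin.natAdd D i))
      (fun i => u (Fin.natAdd D i))
    by_cases hv : (fun i => u (Fin.castAdd (d + 1) i)) = (0 : Fin D → K)
    · have hw : (fun i => u (Fin.natAdd D i)) ≠ (0 : Fin (d + 1) → K) := by
        intro hw
        apply hu
        funext i
        refine Fin.addCases (fun i => ?_) (fun i => ?_) i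
        · exact congrFun hv i
        · exact congrFun hw i
      have hc := hg2 hw
      have hdeg : g.natDegree = d + 1 := le_antisymm hg1 (le_natDegree_of_ne_zero hc)
      refine ⟨C (Φ (fun i => x (Fin.castAdd (d + 1) i))) + g, ?_, ?_, ?_⟩
      · rw [natDegree_C_add, hdeg]
        omega
      · rw [natDegree_C_add, hdeg]
      · intro s
        have h1 : (fun i => (x + s • u) (Fin.castAdd (d + 1) i)) =
            (fun i => x (Fin.castAdd (d + 1) i)) := by
          funext i
          have := congrFun hv i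
          simp only [Pi.zero_apply] at this
          simp [this]
        have h2 : (fun i => (x + s • u) (Fin.natAdd D i)) =
            (fun i => x (Fin.natAdd D i)) + s • (fun i => u (Fin.natAdd D i)) := by
          funext i
          simp
        simp only [Pi.add_apply] at h1 h2 ⊢
        simp only [h1, h2, hg4 s, eval_add, eval_C]
    · obtain ⟨f, hf1, hf2, hf3⟩ := hΦ (fun i => x (Fin.castAdd (d + 1) i))
        (fun i => u (Fin.castAdd (d + 1) i)) hv
      have hval : ∀ s : K, Φ (fun i => (x + s • u) (Fin.castAdd (d + 1) i)) +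
          N (fun i => (x + s • u) (Fin.natAdd D i)) = (f + g).eval s := by
        intro s
        have h1 : (fun i => (x + s • u) (Fin.castAdd (d + 1) i)) =
            (fun i => x (Fin.castAdd (d + 1) i)) + s • (fun i => u (Fin.castAdd (d + 1) i)) := by
          funext i
          simp
        have h2 : (fun i => (x + s • u) (Fin.natAdd D i)) =
            (fun i => x (Fin.natAdd D i)) + s • (fun i => u (Fin.natAdd D i)) := by
          funext i
          simp
        rw [h1, h2, hf3 s, hg4 s, eval_add]
      refine ⟨f + g, ?_, ?_, hval⟩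
      · by_cases hw : (fun i => u (Fin.natAdd D i)) = (0 : Fin (d + 1) → K)
        · rw [hg3 hw, natDegree_add_C]
          exact hf1
        · have hc := hg2 hw
          have hfc : f.coeff (d + 1) = 0 := coeff_eq_zero_of_natDegree_lt (by omega)
          have : (f + g).coeff (d + 1) ≠ 0 := by
            rw [coeff_add, hfc, zero_add]
            exact hc
          have := le_natDegree_of_ne_zero this
          omega
      · exact (natDegree_add_le _ _).trans (max_le (by omega) hg1)

/-- **Sets without `k`-term progressions given by `s` polynomials of degree `d < k`**. -/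
theorem exists_free (p : ℕ) [Fact p.Prime] {n s d k : ℕ} (hdk : d < k) (hkp : k ≤ p)
    (hn : 2 * n ≤ s * (d * (d + 1))) :
    ∃ A : Set (Fin n → ZMod p), LowSet s d A ∧ 0 ∈ A ∧
      ∀ x y : Fin n → ZMod p, (∀ i : ℕ, i < k → x + (i : ZMod p) • y ∈ A) → y = 0 := by
  classical
  obtain ⟨D, hD, Φ, hΦP, hΦ⟩ := layer (ZMod p) d
  have hnD : n ≤ s * D := by
    have : 2 * n ≤ 2 * (s * D) := by
      calc 2 * n ≤ s * (d * (d + 1)) := hn
        _ = s * (2 * D) := by rw [hD]
        _ = 2 * (s * D) := by ring
    omega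
  obtain ⟨ι⟩ : Nonempty (Fin n ↪ Fin s × Fin D) := by
    refine Function.Embedding.nonempty_of_card_le ?_
    simpa using hnD
  let E : Fin s → (Fin n → ZMod p) →ₗ[ZMod p] (Fin D → ZMod p) := fun a =>
    LinearMap.pi fun i => ∑ l : Fin n, if ι l = (a, i) then LinearMap.proj l else 0
  have hE : ∀ (x : Fin n → ZMod p) (l : Fin n), E (ι l).1 x (ι l).2 = x l := by
    intro x l
    simp only [E, LinearMap.pi_apply, LinearMap.sum_apply]
    rw [Finset.sum_eq_single l]
    · simp
    · intro l' _ hl'
      rw [if_neg]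
      · rfl
      · intro e
        exact hl' (ι.injective e)
    · intro h
      exact absurd (mem_univ _) h
  have hmem : ∀ a, (fun x => Φ (E a x)) ∈ P (ZMod p) (Fin n) d := fun a => comap_mem hΦP (E a)
  choose f hf1 hf2 using fun a => of_mem (hmem a)
  refine ⟨{x | ∀ a, Φ (E a x) = Φ 0}, ⟨f, {v | ∀ a, v a = Φ 0}, hf1, fun y => ?_⟩, ?_, ?_⟩
  · simp only [Set.mem_ofPred_eq, hf2]
  · intro a
    rw [map_zero]
  · intro x y hxy
    by_contra hy
    obtain ⟨l, hl⟩ : ∃ l, y l ≠ 0 := by
      by_contra hcon
      push Not at hcon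
      exact hy (funext hcon)
    have hEy : E (ι l).1 y ≠ 0 := by
      intro h
      apply hl
      rw [← hE y l, h]
      rfl
    obtain ⟨g, hg1, hg2, hg3⟩ := hΦ (E (ι l).1 x) (E (ι l).1 y) hEy
    have hgc : g - C (Φ 0) ≠ 0 := by
      intro h
      have : g = C (Φ 0) := sub_eq_zero.mp h
      rw [this, natDegree_C] at hg1
      omega
    have hroots : ∀ i < k, (g - C (Φ 0)).IsRoot (i : ZMod p) := by
      intro i hi
      have h1 := hxy i hi (ι l).1
      rw [map_add, map_smul, hg3] at h1
      rw [IsRoot, eval_sub, eval_C, h1, sub_self]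
    have hsub : (range k).image (fun i : ℕ => (i : ZMod p)) ⊆ (g - C (Φ 0)).roots.toFinset := by
      intro t ht
      obtain ⟨i, hi, rfl⟩ := mem_image.1 ht
      rw [Multiset.mem_toFinset, mem_roots hgc]
      exact hroots i (mem_range.1 hi)
    have h2 := card_le_card hsub
    rw [card_image_of_injOn, card_range] at h2
    · have h3 := (Multiset.toFinset_card_le _).trans (card_roots' (g - C (Φ 0)))
      have h4 : (g - C (Φ 0)).natDegree ≤ d := by
        refine (natDegree_sub_le _ _).trans (max_le hg2 ?_)
        rw [natDegree_C]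
        exact Nat.zero_le _
      omega
    · intro i hi j hj hij
      rw [coe_range, Set.mem_Iio] at hi hj
      have := (ZMod.natCast_eq_natCast_iff' i j p).1 hij
      rwa [Nat.mod_eq_of_lt (by omega), Nat.mod_eq_of_lt (by omega)] at this

end Pool.Agent.X49.Alg
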