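import Pool.Agent.X49.Alg.Loc
import Pool.Agent.TH17.LD.Expand

set_option autoImplicit false

/-!
# Progressions in sets given by polynomials of low degree
-/

namespace Pool.Agent.X49.Alg

open Finset MvPolynomial Pool.Agent.TH17.LD

variable {p : ℕ} [hp : Fact p.Prime]

/-- the matrix of the powers `(i + 1) ^ (D - j)` -/
def NM (p K D : ℕ) : Matrix (Fin K) (Fin K) (ZMod p) := fun i j => ((i : ℕ) + 1 : ZMod p) ^ (D - j)

theorem node_inj {K : ℕ} (hK : K < p) :
    Function.Injective fun i : Fin K => ((i : ℕ) + 1 : ZMod p) := by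
  intro i j hij
  have h : (((i : ℕ) + 1 : ℕ) : ZMod p) = (((j : ℕ) + 1 : ℕ) : ZMod p) := by
    push_cast; exact hij
  rw [ZMod.natCast_eq_natCast_iff'] at h
  rw [Nat.mod_eq_of_lt (by omega), Nat.mod_eq_of_lt (by omega)] at h
  exact Fin.ext (by omega)

theorem node_ne {K : ℕ} (hK : K < p) (i : Fin K) : ((i : ℕ) + 1 : ZMod p) ≠ 0 := by
  intro h
  have h' : (((i : ℕ) + 1 : ℕ) : ZMod p) = 0 := by push_cast; exact h
  rw [ZMod.natCast_eq_zero_iff] at h'
  have := Nat.le_of_dvd (by omega) h'
  omega

theorem NM_det {K D : ℕ} (hK : K < p) (hD : K ≤ D) : (NM p K D).det ≠ 0 := by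
  intro h
  obtain ⟨v, hv, hv'⟩ := Matrix.exists_mulVec_eq_zero_iff.2 h
  apply hv
  have h1 : (Matrix.vandermonde fun i : Fin K => ((i : ℕ) + 1 : ZMod p)).mulVec
      (fun j => v (Fin.rev j)) = 0 := by
    funext i
    have h2 := congrFun hv' i
    rw [Matrix.mulVec, dotProduct, Pi.zero_apply] at h2 ⊢
    have h3 : ∑ j, NM p K D i j * v j = ((i : ℕ) + 1 : ZMod p) ^ (D - K + 1) *
        ∑ j, Matrix.vandermonde (fun i : Fin K => ((i : ℕ) + 1 : ZMod p)) i j *
          v (Fin.rev j) := by
      rw [Finset.mul_sum, ← Equiv.sum_comp Fin.revPerm]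
      refine Finset.sum_congr rfl fun j _ => ?_
      rw [Matrix.vandermonde_apply, NM, ← mul_assoc, ← pow_add]
      congr 2
      rw [Fin.revPerm_apply, Fin.val_rev]
      have := j.isLt
      omega
    rw [h3] at h2
    exact (mul_eq_zero.1 h2).resolve_left (pow_ne_zero _ (node_ne hK i))
  have h4 := Matrix.eq_zero_of_mulVec_eq_zero
    (Matrix.det_vandermonde_ne_zero_iff.2 (node_inj hK)) h1
  funext j
  have h5 := congrFun h4 (Fin.rev j)
  simpa using h5

/-- A system of functions of the degrees `D, D - 1, …` which controls `φ (x + i y)`. -/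
theorem control {n : ℕ} {K D : ℕ} (hK : K < p) {φ : (Fin n → ZMod p) → ZMod p}
    (hφ : φ ∈ P (ZMod p) (Fin n) D) (x : Fin n → ZMod p) :
    ∃ h : Fin K → (Fin n → ZMod p) → ZMod p,
      (∀ j : Fin K, h j ∈ P (ZMod p) (Fin n) (D - (j : ℕ))) ∧ (∀ j, h j 0 = 0) ∧
      ∀ y, (∀ j, h j y = 0) → ∀ i : ℕ, i ≤ K → φ (x + (i : ZMod p) • y) = φ x := by
  classical
  obtain ⟨Φ, hΦ⟩ := exists_expn hφ
  have h0 : ∀ y, Φ 0 x y = φ x := fun y => hΦ.at_zero x y
  have hexp : ∀ y (t : ZMod p), φ (x + t • y) - φ x = ∑ l ∈ range D, t ^ (l + 1) * Φ (l + 1) x y := by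
    intro y t
    rw [hΦ.eq, Finset.sum_range_succ', pow_zero, one_mul, h0, add_sub_cancel_right]
  rcases Nat.lt_or_ge D K with hDK | hDK
  · refine ⟨fun (j : Fin K) y => if (j : ℕ) < D then Φ (D - (j : ℕ)) x y else 0, fun j => ?_,
      fun j => ?_, ?_⟩
    · by_cases hj : (j : ℕ) < D
      · simp only [hj, if_true]
        exact hΦ.right _ _
      · simp only [hj, if_false]
        exact Submodule.zero_mem _
    · by_cases hj : (j : ℕ) < D
      · simp only [hj, if_true]
        exact hΦ.zero _ _ (by omega)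
      · simp only [hj, if_false]
    · intro y hy i hi
      rw [← sub_eq_zero, hexp]
      refine Finset.sum_eq_zero fun l hl => ?_
      rw [mem_range] at hl
      have h1 := hy ⟨D - (l + 1), by omega⟩
      simp only at h1
      rw [if_pos (by omega)] at h1
      have e : D - (D - (l + 1)) = l + 1 := by omega
      rw [e] at h1
      rw [h1, mul_zero]
  · have hdet := NM_det (p := p) hK hDK
    have hunit : IsUnit (NM p K D).det := isUnit_iff_ne_zero.2 hdet
    let g : Fin K → (Fin n → ZMod p) → ZMod p := fun i y =>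
      φ (x + ((i : ℕ) + 1 : ZMod p) • y) - φ x
    refine ⟨fun (j : Fin K) y => ∑ i, (NM p K D)⁻¹ j i * g i y, fun j => ?_, fun j => ?_, ?_⟩
    · have e : (fun y => ∑ i, (NM p K D)⁻¹ j i * g i y) =
          ∑ l ∈ range D, (∑ i : Fin K, (NM p K D)⁻¹ j i * ((i : ℕ) + 1 : ZMod p) ^ (l + 1)) •
            fun y => Φ (l + 1) x y := by
        funext y
        rw [Finset.sum_apply]
        simp only [Pi.smul_apply, smul_eq_mul, g]
        simp only [hexp, Finset.mul_sum, Finset.sum_mul]
        rw [Finset.sum_comm]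
        refine Finset.sum_congr rfl fun l _ => Finset.sum_congr rfl fun i _ => ?_
        ring
      change (fun y => ∑ i, (NM p K D)⁻¹ j i * g i y) ∈ P (ZMod p) (Fin n) (D - (j : ℕ))
      rw [e]
      refine Submodule.sum_mem _ fun l hl => ?_
      rw [mem_range] at hl
      rcases Nat.lt_or_ge (D - j) (l + 1) with hlj | hlj
      · have h1 : (∑ i : Fin K, (NM p K D)⁻¹ j i * ((i : ℕ) + 1 : ZMod p) ^ (l + 1)) = 0 := by
          have h2 : ((NM p K D)⁻¹ * NM p K D) j ⟨D - (l + 1), by omega⟩ = 0 := by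
            rw [Matrix.nonsing_inv_mul _ hunit, Matrix.one_apply_ne]
            intro e
            have := congrArg Fin.val e
            simp only at this
            omega
          rw [Matrix.mul_apply] at h2
          rw [← h2]
          refine Finset.sum_congr rfl fun i _ => ?_
          rw [NM]
          congr 2
          simp only
          omega
        rw [h1, zero_smul]
        exact Submodule.zero_mem _
      · exact Submodule.smul_mem _ _ (P_mono hlj (hΦ.right _ _))
    · simp [g]
    · intro y hy i hi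
      rcases Nat.eq_zero_or_pos i with rfl | hi0
      · simp
      · have h1 : (NM p K D).mulVec (fun j => ∑ i, (NM p K D)⁻¹ j i * g i y) = fun i => g i y := by
          have h2 : (fun j => ∑ i, (NM p K D)⁻¹ j i * g i y) =
              (NM p K D)⁻¹.mulVec fun i => g i y := rfl
          rw [h2, Matrix.mulVec_mulVec, Matrix.mul_nonsing_inv _ hunit, Matrix.one_mulVec]
        have h3 : (fun j => ∑ i, (NM p K D)⁻¹ j i * g i y) = 0 := funext hy
        rw [h3, Matrix.mulVec_zero] at h1
        have h4 := (congrFun h1 ⟨i - 1, by omega⟩).symm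
        simp only [g, Pi.zero_apply] at h4
        rw [sub_eq_zero] at h4
        rw [← h4]
        congr 3
        have h5 : i = (i - 1) + 1 := by omega
        conv_lhs => rw [h5]
        push_cast
        rfl

/-- the total degree of the system -/
def wt (k D : ℕ) : ℕ := ∑ j ∈ range (k - 1), (D - j)

/-- **Progressions through a point.** -/
theorem progs {n s D k : ℕ} (hk : 1 ≤ k) (hkp : k ≤ p) {A : Set (Fin n → ZMod p)}
    (hA : LowSet s D A) {x : Fin n → ZMod p} (hx : x ∈ A) :
    p ^ (n - s * wt k D) ≤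
      Nat.card {y : Fin n → ZMod p // ∀ i : ℕ, i < k → x + (i : ZMod p) • y ∈ A} := by
  classical
  obtain ⟨f, S, hf, hS⟩ := hA
  have hK : k - 1 < p := by omega
  choose h hh hh0 hhc using fun a : Fin s =>
    control (K := k - 1) hK (P_mono (hf a) (eval_mem (f a))) x
  have h1 := warning2 (F := ZMod p) (σ := Fin n) (J := Fin s × Fin (k - 1))
    (fun q => h q.1 q.2) (fun q => D - q.2) (fun q => hh q.1 q.2) 0 (fun q => hh0 q.1 q.2)
  have h2 : ∑ q : Fin s × Fin (k - 1), (D - (q.2 : ℕ)) = s * wt k D := by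
    rw [Fintype.sum_prod_type]
    simp only [Finset.sum_const, Finset.card_univ, Fintype.card_fin, smul_eq_mul]
    rw [wt, Finset.sum_range]
  rw [h2, ZMod.card, Fintype.card_fin] at h1
  refine h1.trans ?_
  refine Nat.card_le_card_of_injective (fun y => ⟨y.1, fun i hi => ?_⟩) ?_
  · rw [hS]
    have h3 : (fun j => eval (x + (i : ZMod p) • y.1) (f j)) = fun j => eval x (f j) := by
      funext a
      exact hhc a y.1 (fun j => y.2 (a, j)) i (by omega)
    rw [h3]
    exact (hS x).1 hx
  · intro y y' e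
    exact Subtype.ext (congrArg (fun z => z.1) e)

end Pool.Agent.X49.Alg
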